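import Pool.Agent.Lib.MP_a7ce8b_al.Defs

-- part Pool.Agent.Lib.MP_a7ce8b_al.Basic
section

/-! Basic tools: invariant equivalence relations, abelian normal subgroups, finite sections. -/

namespace Pool.Agent.Lib.MP_a7ce8b_al

open MulAction
open scoped Pointwise

section Rel
variable {G X : Type*} [Group G] [MulAction G X]

theorem rel_total (hG : IsPreprimitive G X) (r : X → X → Prop) (hr : Equivalence r)
    (hinv : ∀ (g : G) x y, r x y → r (g • x) (g • y)) {x y : X} (hxy : x ≠ y) (h : r x y) :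
    ∀ a b, r a b := by
  have hB : IsBlock G {z | r x z} := by
    rw [isBlock_iff_smul_eq_of_mem]
    intro g a ha hga
    ext z
    rw [Set.mem_smul_set_iff_inv_smul_mem]
    simp only [Set.mem_ofPred_eq] at *
    constructor
    · intro hz
      have h1 := hinv g _ _ (hr.trans (hr.symm ha) hz)
      rw [smul_inv_smul] at h1
      exact hr.trans hga h1
    · intro hz
      have h1 := hinv g⁻¹ _ _ (hr.trans (hr.symm hga) hz)
      rw [inv_smul_smul] at h1
      exact hr.trans ha h1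
  rcases hG.isTrivialBlock_of_isBlock hB with h1 | h1
  · exact absurd (h1 (show r x x from hr.refl x) (show r x y from h)) hxy
  · intro a b
    have ha : a ∈ {z | r x z} := h1 ▸ Set.mem_univ a
    have hb : b ∈ {z | r x z} := h1 ▸ Set.mem_univ b
    exact hr.trans (hr.symm ha) hb

theorem preprimitive_of_rel (htr : IsPretransitive G X)
    (h : ∀ r : X → X → Prop, Equivalence r → (∀ (g : G) x y, r x y → r (g • x) (g • y)) →
      ∀ x y, x ≠ y → r x y → ∀ a b, r a b) : IsPreprimitive G X := by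
  refine { htr with isTrivialBlock_of_isBlock := fun {B} hB => ?_ }
  by_cases hs : B.Subsingleton
  · exact Or.inl hs
  right
  rw [Set.not_subsingleton_iff] at hs
  obtain ⟨x, hx, y, hy, hxy⟩ := hs
  let r : X → X → Prop := fun a b => ∃ g : G, a ∈ g • B ∧ b ∈ g • B
  have hr : Equivalence r := by
    refine ⟨fun a => ?_, fun ⟨g, h1, h2⟩ => ⟨g, h2, h1⟩, fun ⟨g, h1, h2⟩ ⟨g', h3, h4⟩ => ?_⟩
    · obtain ⟨g, rfl⟩ := htr.exists_smul_eq x a
      exact ⟨g, Set.smul_mem_smul_set hx, Set.smul_mem_smul_set hx⟩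
    · have := isBlock_iff_smul_eq_smul_of_nonempty.1 hB ⟨_, h2, h3⟩
      exact ⟨g, h1, this ▸ h4⟩
  have hinv : ∀ (g : G) a b, r a b → r (g • a) (g • b) := by
    rintro g a b ⟨g', h1, h2⟩
    exact ⟨g * g', mul_smul g g' B ▸ Set.smul_mem_smul_set h1,
      mul_smul g g' B ▸ Set.smul_mem_smul_set h2⟩
  have key := h r hr hinv x y hxy ⟨1, by simpa using hx, by simpa using hy⟩
  refine Set.eq_univ_of_forall fun a => ?_
  obtain ⟨g, h1, h2⟩ := key x a
  have := isBlock_iff_smul_eq_of_nonempty.1 hB ⟨x, h1, hx⟩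
  exact this ▸ h2

/-- A normal subgroup that moves a point is transitive. -/
theorem normal_trans (hG : IsPreprimitive G X) (A : Subgroup G) (hA : A.Normal)
    (hmove : ∃ a ∈ A, ∃ x : X, a • x ≠ x) : ∀ x y : X, ∃ a ∈ A, a • x = y := by
  obtain ⟨a, ha, x, hx⟩ := hmove
  refine rel_total hG (fun x y => ∃ a ∈ A, a • x = y) ⟨fun x => ⟨1, A.one_mem, one_smul _ _⟩, ?_, ?_⟩
    ?_ hx.symm ⟨a, ha, rfl⟩
  · rintro x y ⟨a, ha, rfl⟩
    exact ⟨a⁻¹, A.inv_mem ha, inv_smul_smul _ _⟩
  · rintro x y z ⟨a, ha, rfl⟩ ⟨b, hb, rfl⟩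
    exact ⟨b * a, A.mul_mem hb ha, mul_smul _ _ _⟩
  · rintro g x y ⟨a, ha, rfl⟩
    exact ⟨g * a * g⁻¹, hA.conj_mem a ha g, by simp [mul_smul]⟩

/-- `s` acts as an involution with exactly one fixed point. -/
def OneFix (X : Type*) [MulAction G X] (s : G) : Prop :=
  (∀ x : X, s • s • x = x) ∧ ∃! x : X, s • x = x

variable (A : Subgroup G)

theorem triv_of_fix (htr : ∀ x y : X, ∃ a ∈ A, a • x = y)
    (hc : ∀ a ∈ A, ∀ b ∈ A, ∀ x : X, a • b • x = b • a • x) {a : G} (ha : a ∈ A) {x : X}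
    (hx : a • x = x) : ∀ y : X, a • y = y := by
  intro y
  obtain ⟨b, hb, rfl⟩ := htr x y
  rw [hc a ha b hb, hx]

theorem inverts (hA : A.Normal) (htr : ∀ x y : X, ∃ a ∈ A, a • x = y)
    (hc : ∀ a ∈ A, ∀ b ∈ A, ∀ x : X, a • b • x = b • a • x) {s : G} (hs : OneFix X s)
    {a : G} (ha : a ∈ A) (y : X) : s • a • y = a⁻¹ • s • y := by
  obtain ⟨h2, x, hx, hu⟩ := hs
  have hsa : s * a * s⁻¹ ∈ A := hA.conj_mem a ha s
  have hsi : ∀ z : X, s⁻¹ • z = s • z := fun z => by rw [inv_smul_eq_iff, h2]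
  have h1 : (a * (s * a * s⁻¹)) • x = x := by
    apply hu
    have e1 : (a * (s * a * s⁻¹)) • x = a • s • a • x := by simp [mul_smul, hsi, hx]
    have e2 : a • s • a • x = s • a • s • a • x := by
      have := hc a ha _ hsa x
      simp only [mul_smul, hsi, hx] at this
      exact this
    show s • (a * (s * a * s⁻¹)) • x = _
    rw [e1, ← e2]
  have h3 := triv_of_fix A htr hc (A.mul_mem ha hsa) h1 (s • y)
  simp only [mul_smul, inv_smul_smul] at h3
  rw [eq_inv_smul_iff, h3]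

theorem prod_mem (hA : A.Normal) (htr : ∀ x y : X, ∃ a ∈ A, a • x = y)
    (hc : ∀ a ∈ A, ∀ b ∈ A, ∀ x : X, a • b • x = b • a • x) {s s' : G} (hs : OneFix X s)
    (hs' : OneFix X s') : ∃ a ∈ A, ∀ y : X, s • s' • y = a • y := by
  obtain ⟨x, -⟩ := hs.2
  obtain ⟨a, ha, hax⟩ := htr x (s • s' • x)
  refine ⟨a, ha, fun y => ?_⟩
  obtain ⟨b, hb, rfl⟩ := htr x y
  rw [inverts A hA htr hc hs' hb, inverts A hA htr hc hs (A.inv_mem hb), inv_inv, ← hax,
    hc a ha b hb]

/-- A soluble normal subgroup that moves a point yields a normal subgroup acting as a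
non-trivial abelian group. -/
theorem exists_comm_normal (N : Subgroup G) (hN : N.Normal) [Group.IsSolvable N]
    (hmove : ∃ a ∈ N, ∃ x : X, a • x ≠ x) :
    ∃ A : Subgroup G, A.Normal ∧ (∃ a ∈ A, ∃ x : X, a • x ≠ x) ∧
      ∀ a ∈ A, ∀ b ∈ A, ∀ x : X, a • b • x = b • a • x := by
  classical
  let D : ℕ → Subgroup G := fun n => (derivedSeries N n).map N.subtype
  have hDn : ∀ n, (D n).Normal := fun n => by
    have := hN
    exact inferInstanceAs ((derivedSeries N n).map N.subtype).Normal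
  have hD : ∀ n, D (n + 1) = ⁅D n, D n⁆ := fun n => by
    simp only [D, derivedSeries_succ, Subgroup.map_commutator]
  have hex : ∃ n, ∀ a ∈ D n, ∀ x : X, a • x = x := by
    obtain ⟨n, hn⟩ := (inferInstance : Group.IsSolvable N).solvable
    refine ⟨n, fun a ha x => ?_⟩
    simp only [D, hn, Subgroup.map_bot, Subgroup.mem_bot] at ha
    rw [ha, one_smul]
  have h0 : Nat.find hex ≠ 0 := by
    intro h0
    have := Nat.find_spec hex
    rw [h0] at this
    obtain ⟨a, ha, x, hx⟩ := hmove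
    exact hx (this a ⟨⟨a, ha⟩, by simp, rfl⟩ x)
  obtain ⟨m, hm⟩ := Nat.exists_eq_succ_of_ne_zero h0
  have h1 := Nat.find_min hex (m := m) (by omega)
  have h2 := Nat.find_spec hex
  rw [hm] at h2
  push Not at h1
  refine ⟨D m, hDn m, h1, fun a ha b hb x => ?_⟩
  have := h2 (a * b * a⁻¹ * b⁻¹) (by rw [hD]; exact Subgroup.commutator_mem_commutator ha hb)
    (b • a • x)
  rw [← this]
  simp [mul_smul]

theorem comm_of_solvable (hG : IsPreprimitive G X) (N : Subgroup G) (hN : N.Normal)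
    [Group.IsSolvable N] (hmove : ∃ a ∈ N, ∃ x : X, a • x ≠ x) {s₁ s₂ s₃ s₄ : G}
    (h₁ : OneFix X s₁) (h₂ : OneFix X s₂) (h₃ : OneFix X s₃) (h₄ : OneFix X s₄) (y : X) :
    s₁ • s₂ • s₃ • s₄ • y = s₃ • s₄ • s₁ • s₂ • y := by
  obtain ⟨A, hA, hm, hc⟩ := exists_comm_normal N hN hmove
  have htr := normal_trans hG A hA hm
  obtain ⟨a, ha, ea⟩ := prod_mem A hA htr hc h₁ h₂
  obtain ⟨b, hb, eb⟩ := prod_mem A hA htr hc h₃ h₄
  rw [ea, eb, eb, ea, hc a ha b hb]

end Rel

section LF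
variable {G : Type*} [Group G]

theorem IsLocallyFinite.finite_closure (h : IsLocallyFinite G) {s : Set G} (hs : s.Finite) :
    Finite (Subgroup.closure s) := by
  have := h hs.toFinset
  rwa [hs.coe_toFinset] at this

theorem IsLocallyFinite.finite_sup (h : IsLocallyFinite G) (H : Subgroup G) [Finite H]
    {s : Set G} (hs : s.Finite) : Finite (H ⊔ Subgroup.closure s : Subgroup G) := by
  have := h.finite_closure ((Set.toFinite (H : Set G)).union hs)
  rwa [Subgroup.closure_union, Subgroup.closure_eq] at this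

theorem exists_finite_of_mem_closure {s : Set G} {g : G} (hg : g ∈ Subgroup.closure s) :
    ∃ t ⊆ s, t.Finite ∧ g ∈ Subgroup.closure t := by
  induction hg using Subgroup.closure_induction with
  | mem x hx => exact ⟨{x}, by simpa using hx, Set.finite_singleton x,
      Subgroup.subset_closure rfl⟩
  | one => exact ⟨∅, Set.empty_subset _, Set.finite_empty, one_mem _⟩
  | mul x y _ _ hx hy =>
    obtain ⟨t, h1, h2, h3⟩ := hx
    obtain ⟨u, h4, h5, h6⟩ := hy
    exact ⟨t ∪ u, Set.union_subset h1 h4, h2.union h5,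
      mul_mem (Subgroup.closure_mono Set.subset_union_left h3)
        (Subgroup.closure_mono Set.subset_union_right h6)⟩
  | inv x _ hx =>
    obtain ⟨t, h1, h2, h3⟩ := hx
    exact ⟨t, h1, h2, inv_mem h3⟩

/-- The finite primitive section. -/
theorem exists_section (hlf : IsLocallyFinite G) {M : Subgroup G} (hM : IsCoatom M)
    (H₀ : Subgroup G) [Finite H₀] (hH : ¬ H₀ ≤ M) :
    ∃ K L : Subgroup G, Finite K ∧ H₀ ≤ K ∧ L < K ∧ (∀ L', L < L' → L' ≤ K → L' = K) ∧
      L ⊓ H₀ ≤ M ∧ K ⊓ M ≤ L := by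
  classical
  have h1 : ∀ g h : H₀, ∃ t : Set G, t ⊆ M ∧ t.Finite ∧
      (g.1 ∉ M → h.1 ∈ Subgroup.closure (insert g.1 t)) := by
    intro g h
    by_cases hg : g.1 ∈ M
    · exact ⟨∅, Set.empty_subset _, Set.finite_empty, fun h => absurd hg h⟩
    have : Subgroup.closure (insert g.1 (M : Set G)) = ⊤ := by
      apply hM.2
      refine lt_of_le_of_ne (fun x hx => Subgroup.subset_closure (Or.inr hx)) fun e => hg ?_
      rw [e]
      exact Subgroup.subset_closure (Or.inl rfl)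
    obtain ⟨t, ht1, ht2, ht3⟩ := exists_finite_of_mem_closure (g := h.1) (this ▸ Subgroup.mem_top _)
    refine ⟨t ∩ M, Set.inter_subset_right, ht2.inter_of_left _, fun _ => ?_⟩
    refine Subgroup.closure_mono (fun x hx => ?_) ht3
    rcases ht1 hx with h | h
    · exact Or.inl h
    · exact Or.inr ⟨hx, h⟩
  choose t ht1 ht2 ht3 using h1
  let T : Set G := ⋃ g, ⋃ h, t g h
  have hT : T.Finite := Set.finite_iUnion fun g => Set.finite_iUnion fun h => ht2 g h
  let H : Subgroup G := H₀ ⊔ Subgroup.closure T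
  have : Finite H := hlf.finite_sup H₀ hT
  let 𝒮 : Set (Subgroup G) := {L | H ⊓ M ≤ L ∧ L ≤ H ∧ ¬ H₀ ≤ L}
  have h𝒮 : 𝒮.Finite := by
    refine Set.Finite.subset (s := {L : Subgroup G | L ≤ H}) ?_ fun L hL => hL.2.1
    refine Set.Finite.of_finite_image (f := fun L : Subgroup G => (L : Set G)) ?_
      fun _ _ _ _ h => SetLike.coe_injective h
    refine (Set.toFinite (H : Set G)).finite_subsets.subset ?_
    rintro _ ⟨L, hL, rfl⟩
    exact hL
  obtain ⟨L, hL, hmax⟩ := h𝒮.exists_maximal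
    ⟨H ⊓ M, le_rfl, inf_le_left, fun h => hH (h.trans inf_le_right)⟩
  have hKH : L ⊔ H₀ ≤ H := sup_le hL.2.1 le_sup_left
  refine ⟨L ⊔ H₀, L, Finite.of_injective _ (Subgroup.inclusion_injective hKH), le_sup_right,
    lt_of_le_of_ne le_sup_left fun e => hL.2.2 (e ▸ le_sup_right), fun L' h1 h2 => ?_, ?_,
    le_trans (inf_le_inf_right _ hKH) hL.1⟩
  · by_contra hne
    have : L' ∈ 𝒮 := ⟨hL.1.trans h1.le, h2.trans hKH, fun h => hne (le_antisymm h2 (sup_le h1.le h))⟩
    exact h1.not_ge (hmax this h1.le)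
  · rintro g ⟨hgL, hgH⟩
    by_contra hg
    refine hL.2.2 fun h hh => ?_
    refine (Subgroup.closure_le L).2 ?_ (ht3 ⟨g, hgH⟩ ⟨h, hh⟩ hg)
    rintro x (rfl | hx)
    · exact hgL
    · refine hL.1 ⟨?_, ht1 _ _ hx⟩
      exact Subgroup.mem_sup_right (Subgroup.subset_closure (Set.mem_iUnion₂.2 ⟨_, _, hx⟩))

variable {Ω : Type*} [MulAction G Ω]

theorem fix_coset {K L : Subgroup G} [Finite K] (hLK : L ≤ K) {α : Ω}
    (hKL : K ⊓ stabilizer G α ≤ L) {t : G} (ht : t ∈ K) (h2 : ∀ x : Ω, t • t • x = x)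
    (hα : t • α = α) (hu : ∀ x : Ω, t • x = x → x = α) {k : G} (hk : k ∈ K)
    (hkt : k⁻¹ * t * k ∈ L) : k ∈ L := by
  classical
  have : Finite L := Finite.of_injective _ (Subgroup.inclusion_injective hLK)
  have : Finite (orbit L α) := (Set.finite_range _).to_subtype
  let : Fintype (orbit L α) := Fintype.ofFinite _
  have : Fact (Nat.Prime 2) := ⟨Nat.prime_two⟩
  have htL : t ∈ L := hKL ⟨ht, hα⟩
  let f : L → Function.End (orbit L α) := fun l x => l • x
  have hf : ∀ l : L, (∀ x : Ω, l.1 • l.1 • x = x) → f l ^ 2 ^ 1 = 1 := by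
    intro l hl
    funext x
    exact Subtype.ext (hl x.1)
  have e1 := Equiv.Perm.card_fixedPoints_modEq (hf ⟨t, htL⟩ h2)
  have e2 := Equiv.Perm.card_fixedPoints_modEq (hf ⟨_, hkt⟩ (by
    intro x
    simp only [mul_smul, smul_inv_smul, h2, inv_smul_smul]))
  have e3 : Fintype.card (f ⟨t, htL⟩).fixedPoints = 1 := by
    rw [Fintype.card_eq_one_iff]
    refine ⟨⟨⟨α, mem_orbit_self α⟩, Subtype.ext hα⟩, fun y => ?_⟩
    exact Subtype.ext (Subtype.ext (hu _ (congrArg Subtype.val y.2)))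
  have e4 : Fintype.card (f ⟨_, hkt⟩).fixedPoints ≠ 0 := by
    intro h0
    rw [h0] at e2
    rw [e3] at e1
    have := e1.symm.trans e2
    simp [Nat.ModEq] at this
  obtain ⟨⟨⟨_, ⟨l, rfl⟩⟩, hy⟩⟩ := Fintype.card_pos_iff.1 (Nat.pos_of_ne_zero e4)
  have hy' : (k⁻¹ * t * k) • l.1 • α = l.1 • α := congrArg Subtype.val hy
  have : (k * l.1) • α = α := by
    apply hu
    rw [mul_smul, mul_smul, inv_smul_eq_iff] at hy'
    rw [mul_smul, hy']
  have h5 : k * l.1 ∈ L := hKL ⟨K.mul_mem hk (hLK l.2), this⟩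
  simpa using L.mul_mem h5 (L.inv_mem l.2)

theorem section_preprimitive {K L : Subgroup G} (hLK : L < K)
    (hmax : ∀ L', L < L' → L' ≤ K → L' = K) :
    Nontrivial (K ⧸ L.subgroupOf K) ∧ IsPreprimitive K (K ⧸ L.subgroupOf K) := by
  obtain ⟨k, hk, hkL⟩ := SetLike.exists_of_lt hLK
  have hnt : Nontrivial (K ⧸ L.subgroupOf K) := by
    refine ⟨⟨((1 : K) : K ⧸ L.subgroupOf K), ((⟨k, hk⟩ : K) : K ⧸ L.subgroupOf K), fun e => hkL ?_⟩⟩
    have := QuotientGroup.eq.1 e
    simpa [Subgroup.mem_subgroupOf] using this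
  refine ⟨hnt, ?_⟩
  rw [← isCoatom_stabilizer_iff_preprimitive K ((1 : K) : K ⧸ L.subgroupOf K),
    MulAction.stabilizer_quotient]
  constructor
  · intro e
    have : (⟨k, hk⟩ : K) ∈ L.subgroupOf K := e ▸ Subgroup.mem_top _
    exact hkL this
  · intro P hP
    have h1 : L < P.map K.subtype := by
      obtain ⟨x, hx1, hx2⟩ := SetLike.exists_of_lt hP
      refine lt_of_le_of_ne (fun y hy => ⟨⟨y, hLK.le hy⟩, hP.le hy, rfl⟩) fun e => hx2 ?_
      have : x.1 ∈ P.map K.subtype := ⟨x, hx1, rfl⟩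
      rw [← e] at this
      exact this
    have h2 := hmax _ h1 (Subgroup.map_subtype_le P)
    rw [eq_top_iff]
    intro x _
    have : x.1 ∈ P.map K.subtype := h2.symm ▸ x.2
    obtain ⟨y, hy, e⟩ := this
    exact (Subtype.ext e : y = x) ▸ hy

/-- An involution with a unique fixed point in the `K`-orbit of `α` has a unique fixed point on
the section. -/
theorem section_oneFix {K L : Subgroup G} [Finite K] (hLK : L ≤ K) {α : Ω}
    (hKL : K ⊓ stabilizer G α ≤ L) {s : K} (h2 : s.1 * s.1 = 1) {g : G} (hg : g ∈ K)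
    (hα : s.1 • g • α = g • α) (hu : ∀ x : Ω, s.1 • x = x → x = g • α) :
    OneFix (K ⧸ L.subgroupOf K) s := by
  have hss : s * s = 1 := Subtype.ext h2
  have ht : g⁻¹ * s.1 * g ∈ K := K.mul_mem (K.mul_mem (K.inv_mem hg) s.2) hg
  have htα : (g⁻¹ * s.1 * g) • α = α := by rw [mul_smul, mul_smul, hα, inv_smul_smul]
  refine ⟨fun x => by rw [← mul_smul, hss, one_smul], ((⟨g, hg⟩ : K) : K ⧸ L.subgroupOf K), ?_, ?_⟩
  · show ((s * ⟨g, hg⟩ : K) : K ⧸ L.subgroupOf K) = _
    rw [eq_comm, QuotientGroup.eq, Subgroup.mem_subgroupOf]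
    simpa [mul_assoc] using hKL ⟨ht, htα⟩
  · intro y hy
    induction y using QuotientGroup.induction_on with
    | H k =>
      have hy' : ((s * k : K) : K ⧸ L.subgroupOf K) = k := hy
      rw [eq_comm, QuotientGroup.eq, Subgroup.mem_subgroupOf] at hy'
      rw [eq_comm, QuotientGroup.eq, Subgroup.mem_subgroupOf]
      refine fix_coset hLK hKL ht (fun x => ?_) htα (fun x hx => ?_)
        (K.mul_mem (K.inv_mem hg) k.2) ?_
      · simp only [mul_smul, smul_inv_smul]
        rw [← mul_smul s.1, h2, one_smul, inv_smul_smul]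
      · rw [mul_smul, mul_smul, inv_smul_eq_iff] at hx
        exact smul_left_cancel g (hu _ hx)
      · simpa [mul_assoc] using hy'

end LF

end Pool.Agent.Lib.MP_a7ce8b_al
end

-- part Pool.Agent.Lib.MP_a7ce8b_al.Affine
section

/-! The case of a non-trivial locally soluble normal subgroup. -/

namespace Pool.Agent.Lib.MP_a7ce8b_al

open MulAction

variable {G Ω : Type*} [Group G] [MulAction G Ω]

theorem Star.fix (h : Star G Ω) {P : Subgroup G} (hP : IsPGroup 2 P) :
    ∃ ω : Ω, ∀ g ∈ P, g • ω = ω := by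
  obtain ⟨S, hS⟩ := hP.exists_le_sylow
  obtain ⟨t, -, hc, -, ω, hω, hu⟩ := h S
  refine ⟨ω, fun g hg => hu _ ?_⟩
  show t • g • ω = g • ω
  rw [← mul_smul, ← hc g (hS hg), mul_smul, hω]

theorem sq_of_orderOf {t : G} (h : orderOf t = 2) : t * t = 1 := by
  rw [← pow_two, ← h, pow_orderOf_eq_one]

theorem IsLocallyFinite.of_injective {H : Type*} [Group H] (f : H →* G)
    (hf : Function.Injective f) (hG : IsLocallyFinite G) : IsLocallyFinite H := by
  intro s
  have := hG.finite_closure (s.finite_toSet.image f)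
  rw [← MonoidHom.map_closure] at this
  exact Finite.of_equiv _ (Subgroup.equivMapOfInjective _ f hf).symm.toEquiv

theorem IsLocallySoluble.solvable {N : Subgroup G} (hN : IsLocallySoluble N) (K : Subgroup G)
    [Finite K] : Group.IsSolvable (N.subgroupOf K) := by
  have hfin : {n : N | n.1 ∈ K}.Finite :=
    (Set.toFinite (K : Set G)).preimage Subtype.val_injective.injOn
  have := hN hfin.toFinset
  let f : N.subgroupOf K →* Subgroup.closure ((hfin.toFinset : Finset N) : Set N) :=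
    { toFun := fun x => ⟨⟨x.1.1, x.2⟩, Subgroup.subset_closure (by simp)⟩
      map_one' := rfl
      map_mul' := fun _ _ => rfl }
  refine Group.isSolvable_of_isSolvable_injective (f := f) fun x y e => ?_
  exact Subtype.ext (Subtype.ext (congrArg (fun z => z.1.1) e))

theorem exists_move [FaithfulSMul G Ω] {N : Subgroup G} (hN : N ≠ ⊥) :
    ∃ a ∈ N, ∃ x : Ω, a • x ≠ x := by
  by_contra h
  push Not at h
  refine hN (eq_bot_iff.2 fun a ha => ?_)
  exact eq_of_smul_eq_smul (α := Ω) fun x => by rw [h a ha, one_smul]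

theorem prod_comm [FaithfulSMul G Ω] [Nontrivial Ω] (hlf : IsLocallyFinite G)
    (hG : IsPreprimitive G Ω) {N : Subgroup G} (hN : N.Normal) (hN0 : N ≠ ⊥)
    (hs : IsLocallySoluble N) (s : Fin 4 → G) (h2 : ∀ i, s i * s i = 1)
    (hu : ∀ i, ∃! ω : Ω, s i • ω = ω) :
    s 0 * s 1 * (s 2 * s 3) = s 2 * s 3 * (s 0 * s 1) := by
  classical
  refine eq_of_smul_eq_smul (α := Ω) fun ω => ?_
  obtain ⟨β, hβ⟩ := exists_ne ω
  obtain ⟨n, hn, hnω⟩ := normal_trans hG N hN (exists_move hN0) ω β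
  have hg : ∀ i, ∃ g : G, s i • g • ω = g • ω ∧ ∀ x : Ω, s i • x = x → x = g • ω := fun i => by
    obtain ⟨x, hx, hx'⟩ := hu i
    obtain ⟨g, rfl⟩ := hG.toIsPretransitive.exists_smul_eq ω x
    exact ⟨g, hx, hx'⟩
  choose g hg1 hg2 using hg
  let H₀ : Subgroup G := Subgroup.closure (insert n (Set.range s ∪ Set.range g))
  have : Finite H₀ :=
    hlf.finite_closure (((Set.finite_range s).union (Set.finite_range g)).insert n)
  have hnH : n ∈ H₀ := Subgroup.subset_closure (Or.inl rfl)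
  have hsH : ∀ i, s i ∈ H₀ := fun i => Subgroup.subset_closure (Or.inr (Or.inl ⟨i, rfl⟩))
  have hgH : ∀ i, g i ∈ H₀ := fun i => Subgroup.subset_closure (Or.inr (Or.inr ⟨i, rfl⟩))
  have hnM : n ∉ stabilizer G ω := fun h => hβ (hnω.symm.trans h)
  obtain ⟨K, L, hK, hHK, hLK, hmax, hLH, hKL⟩ := exists_section hlf
    ((isCoatom_stabilizer_iff_preprimitive G ω).2 hG) H₀ fun h => hnM (h hnH)
  obtain ⟨-, hprim⟩ := section_preprimitive hLK hmax
  have hone : ∀ i, OneFix (K ⧸ L.subgroupOf K) (⟨s i, hHK (hsH i)⟩ : K) := fun i =>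
    section_oneFix hLK.le hKL (h2 i) (hHK (hgH i)) (hg1 i) (hg2 i)
  have := hs.solvable K
  have key := comm_of_solvable hprim (N.subgroupOf K) (hN.subgroupOf K)
    ⟨⟨n, hHK hnH⟩, hn, ((1 : K) : K ⧸ L.subgroupOf K), fun e => hnM (hLH ⟨?_, hnH⟩)⟩
    (hone 0) (hone 1) (hone 2) (hone 3) ((1 : K) : K ⧸ L.subgroupOf K)
  · simp only [MulAction.Quotient.smul_coe, smul_eq_mul, mul_one] at key
    rw [QuotientGroup.eq, Subgroup.mem_subgroupOf] at key
    have h3 : (s 0 * s 1 * (s 2 * s 3))⁻¹ * (s 2 * s 3 * (s 0 * s 1)) ∈ stabilizer G ω := by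
      refine hLH ⟨by simpa [mul_assoc] using key, ?_⟩
      exact H₀.mul_mem (H₀.inv_mem (H₀.mul_mem (H₀.mul_mem (hsH _) (hsH _))
        (H₀.mul_mem (hsH _) (hsH _)))) (H₀.mul_mem (H₀.mul_mem (hsH _) (hsH _))
        (H₀.mul_mem (hsH _) (hsH _)))
    rw [mem_stabilizer_iff, mul_smul, inv_smul_eq_iff] at h3
    exact h3.symm
  · simp only [MulAction.Quotient.smul_coe, smul_eq_mul, mul_one] at e
    rw [eq_comm, QuotientGroup.eq, Subgroup.mem_subgroupOf] at e
    simpa using e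

theorem exists_abelian_normal [FaithfulSMul G Ω] [Nontrivial Ω] (hlf : IsLocallyFinite G)
    (hG : IsPreprimitive G Ω) {N : Subgroup G} (hN : N.Normal) (hN0 : N ≠ ⊥)
    (hs : IsLocallySoluble N) {t : G} (ht : t * t = 1) (hu : ∃! ω : Ω, t • ω = ω) :
    ∃ A : Subgroup G, A.Normal ∧ A ≠ ⊥ ∧ ∀ a ∈ A, ∀ b ∈ A, a * b = b * a := by
  let J : G → Prop := fun s => s * s = 1 ∧ ∃! ω : Ω, s • ω = ω
  have hJ : ∀ g s, J s → J (g * s * g⁻¹) := by
    rintro g s ⟨h1, ω, h2, h3⟩
    refine ⟨by simp [mul_assoc, ← mul_assoc s s, h1], g • ω, by simp [mul_smul, h2], fun x hx => ?_⟩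
    rw [← inv_smul_eq_iff]
    apply h3
    have hx' : (g * s * g⁻¹) • x = x := hx
    rwa [mul_smul, mul_smul, ← eq_inv_smul_iff] at hx'
  let T : Set G := {x | ∃ s s', J s ∧ J s' ∧ x = s * s'}
  have hT : ∀ x ∈ T, ∀ y ∈ T, x * y = y * x := by
    rintro _ ⟨a, b, ha, hb, rfl⟩ _ ⟨c, d, hc, hd, rfl⟩
    refine prod_comm hlf hG hN hN0 hs ![a, b, c, d] (fun i => ?_) (fun i => ?_)
    · fin_cases i
      exacts [ha.1, hb.1, hc.1, hd.1]
    · fin_cases i
      exacts [ha.2, hb.2, hc.2, hd.2]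
  refine ⟨Subgroup.closure T, ⟨fun a ha g => ?_⟩, fun e => ?_, fun a ha b hb => ?_⟩
  · induction ha using Subgroup.closure_induction with
    | mem x hx =>
      obtain ⟨a, b, ha, hb, rfl⟩ := hx
      exact Subgroup.subset_closure ⟨_, _, hJ g a ha, hJ g b hb, by simp [mul_assoc]⟩
    | one => simp
    | mul x y _ _ hx hy => simpa [mul_assoc] using mul_mem hx hy
    | inv x _ hx => simpa [mul_assoc] using inv_mem hx
  · obtain ⟨ω, hω, hω'⟩ := hu
    obtain ⟨β, hβ⟩ := exists_ne ω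
    obtain ⟨g, rfl⟩ := hG.toIsPretransitive.exists_smul_eq ω β
    have h1 : t * (g * t * g⁻¹) ∈ Subgroup.closure T :=
      Subgroup.subset_closure ⟨_, _, ⟨ht, ω, hω, hω'⟩, hJ g t ⟨ht, ω, hω, hω'⟩, rfl⟩
    rw [e, Subgroup.mem_bot] at h1
    apply hβ
    apply hω'
    have h2 : (t * (g * t * g⁻¹)) • g • ω = g • ω := by rw [h1, one_smul]
    have hω2 : t • ω = ω := hω
    simpa [mul_smul, hω2] using h2
  · have h1 : Subgroup.closure T ≤ Subgroup.centralizer T :=
      (Subgroup.closure_le _).2 fun x hx y hy => hT y hy x hx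
    have h2 : Subgroup.closure T ≤ Subgroup.centralizer {a} :=
      (Subgroup.closure_le _).2 fun x hx y hy => by
        rw [Set.mem_singleton_iff.1 hy]
        exact (h1 ha x hx).symm
    exact h2 hb a rfl

theorem exists_addCommGroup (A : Subgroup G) (α : Ω) (htr : ∀ x y : Ω, ∃ a ∈ A, a • x = y)
    (hreg : ∀ a ∈ A, a • α = α → a = 1) (hc : ∀ a ∈ A, ∀ b ∈ A, a * b = b * a) :
    ∃ _ : AddCommGroup Ω, (0 : Ω) = α ∧ ∀ a ∈ A, ∀ x : Ω, a • x = a • α + x := by
  let : CommGroup A := { (inferInstance : Group A) with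
    mul_comm := fun a b => Subtype.ext (hc _ a.2 _ b.2) }
  have hb : Function.Bijective fun a : A => a.1 • α := by
    constructor
    · intro a b e
      have : b.1⁻¹ * a.1 = 1 := hreg _ (A.mul_mem (A.inv_mem b.2) a.2) (by
        rw [mul_smul, inv_smul_eq_iff]; exact e)
      exact Subtype.ext (inv_mul_eq_one.1 this).symm
    · intro y
      obtain ⟨a, ha, e⟩ := htr α y
      exact ⟨⟨a, ha⟩, e⟩
  let e : Ω ≃ Additive A := (Equiv.ofBijective _ hb).symm.trans Additive.ofMul
  have he : ∀ a : A, e (a.1 • α) = Additive.ofMul a := fun a =>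
    congrArg Additive.ofMul ((Equiv.ofBijective _ hb).symm_apply_apply a)
  refine ⟨e.addCommGroup, ?_, fun a ha x => ?_⟩
  · show e.symm 0 = α
    rw [Equiv.symm_apply_eq]
    have := he 1
    simp only [OneMemClass.coe_one, one_smul] at this
    exact this.symm
  · obtain ⟨b, hb', rfl⟩ := htr α x
    show _ = e.symm (e _ + e _)
    rw [Equiv.eq_symm_apply, he ⟨a, ha⟩, he ⟨b, hb'⟩, ← mul_smul]
    exact he (⟨a, ha⟩ * ⟨b, hb'⟩)

theorem affine_of_star [FaithfulSMul G Ω] [Nontrivial Ω] (hlf : IsLocallyFinite G)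
    (hG : IsPreprimitive G Ω) (hstar : Star G Ω) {N : Subgroup G} (hN : N.Normal) (hN0 : N ≠ ⊥)
    (hs : IsLocallySoluble N) :
    ∃ (p : ℕ) (_ : Fact p.Prime) (_ : AddCommGroup Ω) (_ : Module (ZMod p) Ω)
      (G₀ : Subgroup (Ω ≃ₗ[ZMod p] Ω)), p ≠ 2 ∧ ActsAsAffine G G₀ ∧ IsLocallyFinite G₀ ∧
      IsIrreducibleLinear G₀ ∧ LinearEquiv.neg (ZMod p) ∈ G₀ ∧
      ∀ S ≤ G₀, IsPGroup 2 S → H1Trivial S := by
  obtain ⟨S₀, -⟩ := (IsPGroup.of_bot (p := 2) (G := G)).exists_le_sylow
  obtain ⟨t, -, -, ht2, α, hα, hu⟩ := hstar S₀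
  have ht := sq_of_orderOf ht2
  obtain ⟨A, hA, hA0, hc⟩ := exists_abelian_normal hlf hG hN hN0 hs ht ⟨α, hα, hu⟩
  have htr := normal_trans hG A hA (exists_move hA0)
  have hc' : ∀ a ∈ A, ∀ b ∈ A, ∀ x : Ω, a • b • x = b • a • x := fun a ha b hb x => by
    rw [← mul_smul, hc a ha b hb, mul_smul]
  have hreg : ∀ a ∈ A, a • α = α → a = 1 := fun a ha h =>
    eq_of_smul_eq_smul (α := Ω) fun x => by rw [triv_of_fix A htr hc' ha h, one_smul]
  obtain ⟨inst, h0, hadd⟩ := exists_addCommGroup A α htr hreg hc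
  subst h0
  have hα' : t • (0 : Ω) = 0 := hα
  have hlin : ∀ g : G, g • (0 : Ω) = 0 → ∀ x y : Ω, g • (x + y) = g • x + g • y := by
    intro g hg x y
    obtain ⟨a, ha, rfl⟩ := htr 0 x
    have h1 := hadd _ (hA.conj_mem a ha g) (g • y)
    have h2 : g⁻¹ • (0 : Ω) = 0 := by rw [inv_smul_eq_iff, hg]
    simp only [mul_smul, inv_smul_smul, h2] at h1
    rw [← hadd a ha, h1]
  let lin : ∀ g : G, g • (0 : Ω) = 0 → Ω →+ Ω := fun g hg =>
    { toFun := fun x => g • x
      map_zero' := hg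
      map_add' := hlin g hg }
  have hdec : ∀ g : G, ∃ g₀ : G, g₀ • (0 : Ω) = 0 ∧ ∀ x : Ω, g • x = g₀ • x + g • 0 := by
    intro g
    obtain ⟨a, ha, e⟩ := htr 0 (g • 0)
    refine ⟨a⁻¹ * g, by rw [mul_smul, inv_smul_eq_iff, e], fun x => ?_⟩
    rw [add_comm, ← e, ← hadd a ha, mul_smul, smul_inv_smul]
  have htrans : ∀ v : Ω, ∃ g : G, ∀ x : Ω, g • x = x + v := fun v => by
    obtain ⟨a, ha, e⟩ := htr 0 v
    exact ⟨a, fun x => by rw [hadd a ha, e, add_comm]⟩
  have hneg : ∀ x : Ω, t • x = -x := fun x => by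
    obtain ⟨a, ha, rfl⟩ := htr 0 x
    rw [inverts A hA htr hc' ⟨fun x => by rw [← mul_smul, ht, one_smul], 0, hα, hu⟩ ha, hα',
      eq_neg_iff_add_eq_zero, ← hadd _ (A.inv_mem ha), inv_smul_smul]
  obtain ⟨p, hp, y, hy0, hy⟩ : ∃ p : ℕ, p.Prime ∧ ∃ y : Ω, y ≠ 0 ∧ p • y = 0 := by
    obtain ⟨x, hx⟩ := exists_ne (0 : Ω)
    obtain ⟨g, hg⟩ := htrans x
    have hfin : IsOfFinOrder g := by
      have := hlf.finite_closure (Set.finite_singleton g)
      rw [← Subgroup.zpowers_eq_closure] at this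
      exact finite_zpowers.1 (Set.toFinite _)
    have hpow : ∀ n : ℕ, (g ^ n) • (0 : Ω) = n • x := fun n => by
      induction n with
      | zero => simp
      | succ n ih => rw [pow_succ', mul_smul, ih, hg, succ_nsmul]
    have hx' : IsOfFinAddOrder x := by
      obtain ⟨n, hn, e⟩ := isOfFinOrder_iff_pow_eq_one.1 hfin
      exact isOfFinAddOrder_iff_nsmul_eq_zero.2 ⟨n, hn, by rw [← hpow, e, one_smul]⟩
    have h1 : addOrderOf x ≠ 1 := fun h => hx (AddMonoid.addOrderOf_eq_one_iff.1 h)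
    obtain ⟨p, hp, m, hm⟩ := Nat.exists_prime_and_dvd h1
    have hpos := hx'.addOrderOf_pos
    refine ⟨p, hp, m • x, fun h => ?_, by rw [← mul_nsmul', ← hm, addOrderOf_nsmul_eq_zero]⟩
    have hm0 : 0 < m := Nat.pos_of_ne_zero fun h0 => by rw [h0] at hm; omega
    have := Nat.le_of_dvd hm0 (addOrderOf_dvd_of_nsmul_eq_zero h)
    have := hp.two_le
    nlinarith
  have hall : ∀ x : Ω, p • x = 0 := by
    intro x
    have := rel_total hG (fun x y => p • (x - y) = 0)
      ⟨fun x => by simp, fun {x y} h => by rw [← neg_sub, smul_neg, h, neg_zero],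
        fun {x y z} h h' => by rw [← sub_add_sub_cancel x y z, smul_add, h, h', add_zero]⟩
      (fun g x y h => by
        obtain ⟨g₀, h1, h2⟩ := hdec g
        rw [h2 x, h2 y, add_sub_add_right_eq_sub]
        have := congrArg (lin g₀ h1) h
        rw [map_nsmul, map_sub, map_zero] at this
        exact this) hy0 (by simpa using hy) x 0
    simpa using this
  have : Fact p.Prime := ⟨hp⟩
  obtain ⟨modu⟩ : Nonempty (Module (ZMod p) Ω) := ⟨AddCommGroup.zmodModule hall⟩
  let le : ∀ g : G, g • (0 : Ω) = 0 → Ω ≃ₗ[ZMod p] Ω := fun g hg =>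
    { toFun := fun x => g • x
      invFun := fun x => g⁻¹ • x
      left_inv := fun x => inv_smul_smul g x
      right_inv := fun x => smul_inv_smul g x
      map_add' := hlin g hg
      map_smul' := fun c x => ZMod.map_smul (lin g hg) c x }
  let G₀ : Subgroup (Ω ≃ₗ[ZMod p] Ω) :=
    { carrier := {a : Ω ≃ₗ[ZMod p] Ω | ∃ g : G, ∀ x, g • x = a x}
      one_mem' := ⟨1, fun x => one_smul _ _⟩
      mul_mem' := by
        rintro a b ⟨g, hg⟩ ⟨h, hh⟩
        exact ⟨g * h, fun x => by rw [mul_smul, hh, hg]; rfl⟩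
      inv_mem' := by
        rintro a ⟨g, hg⟩
        refine ⟨g⁻¹, fun x => ?_⟩
        rw [inv_smul_eq_iff, hg]
        exact (a.apply_symm_apply x).symm }
  refine ⟨p, inferInstance, inst, modu, G₀, ?_, fun f => ⟨?_, ?_⟩, ?_, ?_, ⟨t, hneg⟩, ?_⟩
  · rintro rfl
    obtain ⟨x, hx⟩ := exists_ne (0 : Ω)
    apply hx
    apply hu
    show t • x = x
    rw [hneg, neg_eq_iff_add_eq_zero, ← two_nsmul, hall]
  · rintro ⟨g, hg⟩
    obtain ⟨g₀, h1, h2⟩ := hdec g
    exact ⟨le g₀ h1, ⟨g₀, fun x => rfl⟩, g • 0, fun x => by rw [← hg, h2]; rfl⟩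
  · rintro ⟨a, ⟨g, hg⟩, v, hf⟩
    obtain ⟨b, hb⟩ := htrans v
    exact ⟨b * g, fun x => by rw [mul_smul, hb, hg, hf]⟩
  · have hch : ∀ a : G₀, ∃ g : G, ∀ x, g • x = a.1 x := fun a => a.2
    choose ψ hψ using hch
    let ψ' : G₀ →* G := MonoidHom.mk' ψ fun a b =>
      eq_of_smul_eq_smul (α := Ω) fun x => by rw [mul_smul, hψ, hψ, hψ]; rfl
    refine IsLocallyFinite.of_injective ψ' (fun a b e => ?_) hlf
    have e' : ψ a = ψ b := e
    exact Subtype.ext (LinearEquiv.ext fun x => by rw [← hψ, ← hψ, e'])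
  · intro W hW
    by_cases hW0 : W = ⊥
    · exact Or.inl hW0
    right
    obtain ⟨w, hw, hw0⟩ := Submodule.exists_mem_ne_zero_of_ne_bot hW0
    have := rel_total hG (fun x y => x - y ∈ W)
      ⟨fun x => by simp, fun {x y} h => by rw [← neg_sub]; exact W.neg_mem h,
        fun {x y z} h h' => by rw [← sub_add_sub_cancel x y z]; exact W.add_mem h h'⟩
      (fun g x y h => by
        obtain ⟨g₀, h1, h2⟩ := hdec g
        rw [h2 x, h2 y, add_sub_add_right_eq_sub]
        have := hW (le g₀ h1) ⟨g₀, fun x => rfl⟩ _ h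
        rw [map_sub] at this
        exact this) hw0 (by simpa using hw)
    rw [eq_top_iff]
    intro x _
    simpa using this x 0
  · intro S hS hS2 δ hδ
    have hch : ∀ s : S, ∃ g : G, ∀ x, g • x = s.1 x + δ s := fun s => by
      obtain ⟨g, hg⟩ := hS s.2
      obtain ⟨b, hb⟩ := htrans (δ s)
      exact ⟨b * g, fun x => by rw [mul_smul, hb, hg]⟩
    choose ψ hψ using hch
    let ψ' : S →* G := MonoidHom.mk' ψ fun a b =>
      eq_of_smul_eq_smul (α := Ω) fun x => by
        rw [mul_smul, hψ, hψ, hψ, hδ, map_add, add_assoc, add_comm (δ a)]; rfl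
    obtain ⟨w, hw⟩ := hstar.fix (P := ψ'.range) (hS2.of_surjective ψ'.rangeRestrict
      ψ'.rangeRestrict_surjective)
    refine ⟨-w, fun s => ?_⟩
    have := hw (ψ s) ⟨s, rfl⟩
    rw [hψ] at this
    rw [map_neg, sub_neg_eq_add, eq_neg_add_iff_add_eq, this]

theorem star_of_affine [FaithfulSMul G Ω] [Nontrivial Ω] {p : ℕ} [Fact p.Prime]
    [AddCommGroup Ω] [Module (ZMod p) Ω] {G₀ : Subgroup (Ω ≃ₗ[ZMod p] Ω)} (hp : p ≠ 2)
    (haff : ActsAsAffine G G₀) (hlf : IsLocallyFinite G₀) (hirr : IsIrreducibleLinear G₀)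
    (hneg : LinearEquiv.neg (ZMod p) ∈ G₀) (hH : ∀ S ≤ G₀, IsPGroup 2 S → H1Trivial S) :
    IsLocallyFinite G ∧ IsPreprimitive G Ω ∧ Star G Ω ∧
      ∃ N : Subgroup G, N.Normal ∧ N ≠ ⊥ ∧ IsLocallySoluble N := by
  classical
  have hch : ∀ g : G, ∃ a : G₀, ∀ x : Ω, g • x = a.1 x + g • (0 : Ω) := fun g => by
    obtain ⟨a, ha, v, hv⟩ := (haff fun x => g • x).1 ⟨g, fun x => rfl⟩
    refine ⟨⟨a, ha⟩, fun x => ?_⟩
    have h0 := hv 0
    simp only [map_zero, zero_add] at h0
    rw [h0]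
    exact hv x
  choose l hl using hch
  let lin : G →* G₀ := MonoidHom.mk' l fun g h => Subtype.ext (LinearEquiv.ext fun x => by
    have h1 := hl (g * h) x
    rw [mul_smul, mul_smul, hl g (h • x), hl g (h • 0), hl h x, map_add, add_assoc] at h1
    exact (add_right_cancel h1).symm)
  have hlin : ∀ (g : G) (x : Ω), g • x = (lin g).1 x + g • (0 : Ω) := hl
  have hex : ∀ a ∈ G₀, ∀ v : Ω, ∃ g : G, ∀ x : Ω, g • x = a x + v := fun a ha v =>
    (haff fun x => a x + v).2 ⟨a, ha, v, fun x => rfl⟩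
  have htrans : ∀ v : Ω, ∃ g : G, ∀ x : Ω, g • x = x + v := fun v => hex 1 G₀.one_mem v
  have h2 : ∀ x : Ω, x + x = 0 → x = 0 := fun x hx => by
    have h20 : (2 : ZMod p) ≠ 0 := by
      intro h
      have := (ZMod.natCast_eq_zero_iff 2 p).1 (by exact_mod_cast h)
      exact hp ((Nat.prime_dvd_prime_iff_eq Fact.out Nat.prime_two).1 this)
    rw [← two_smul (ZMod p)] at hx
    exact (smul_eq_zero.1 hx).resolve_left h20
  have hker : ∀ g : G, lin g = 1 → ∀ x : Ω, g • x = x + g • (0 : Ω) := fun g hg x => by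
    rw [hlin g x, hg]; rfl
  refine ⟨fun s => ?_, ?_, fun S => ?_, lin.ker, inferInstance, fun e => ?_, fun s => ?_⟩
  · let H₀ : Subgroup G₀ := Subgroup.closure (lin '' (s : Set G))
    have : Finite H₀ := hlf.finite_closure (s.finite_toSet.image lin)
    let T : Set Ω := Set.range fun q : H₀ × s => q.1.1.1 (q.2.1 • (0 : Ω))
    let W : Submodule (ZMod p) Ω := Submodule.span (ZMod p) T
    have : Module.Finite (ZMod p) W := Module.Finite.span_of_finite _ (Set.finite_range _)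
    have : NeZero p := ⟨(Fact.out : p.Prime).ne_zero⟩
    have : Finite W := Module.finite_of_finite (ZMod p)
    have hW : ∀ a ∈ H₀, ∀ x ∈ W, a.1 x ∈ W := fun a ha x hx => by
      induction hx using Submodule.span_induction with
      | mem x hx =>
        obtain ⟨⟨b, g⟩, rfl⟩ := hx
        exact Submodule.subset_span ⟨(⟨a, ha⟩ * b, g), rfl⟩
      | zero => simp
      | add x y _ _ hx hy => rw [map_add]; exact W.add_mem hx hy
      | smul c x _ hx => rw [map_smul]; exact W.smul_mem c hx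
    let P : Subgroup G :=
      { carrier := {g | lin g ∈ H₀ ∧ g • (0 : Ω) ∈ W}
        one_mem' := ⟨by simp, by simp⟩
        mul_mem' := by
          rintro g h ⟨hg, hg'⟩ ⟨hh, hh'⟩
          refine ⟨by rw [map_mul]; exact H₀.mul_mem hg hh, ?_⟩
          rw [mul_smul, hlin g]
          exact W.add_mem (hW _ hg _ hh') hg'
        inv_mem' := by
          rintro g ⟨hg, hg'⟩
          have hi : lin g⁻¹ ∈ H₀ := by rw [map_inv]; exact H₀.inv_mem hg
          refine ⟨hi, ?_⟩
          have := hlin g⁻¹ (g • 0)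
          rw [inv_smul_smul, eq_comm, add_eq_zero_iff_neg_eq] at this
          rw [← this]
          exact W.neg_mem (hW _ hi _ hg') }
    have : Finite P := by
      refine Finite.of_injective (fun g : P => ((⟨lin g, g.2.1⟩, ⟨g.1 • (0 : Ω), g.2.2⟩) : H₀ × W))
        fun g h e => ?_
      have e1 : lin g = lin h := congrArg (fun q : H₀ × W => q.1.1) e
      have e2 : g.1 • (0 : Ω) = h.1 • (0 : Ω) := congrArg (fun q : H₀ × W => q.2.1) e
      exact Subtype.ext (eq_of_smul_eq_smul (α := Ω) fun x => by rw [hlin, hlin h.1, e1, e2])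
    have hle : Subgroup.closure (s : Set G) ≤ P := (Subgroup.closure_le _).2 fun g hg =>
      ⟨Subgroup.subset_closure ⟨g, hg, rfl⟩, Submodule.subset_span ⟨(1, ⟨g, hg⟩), rfl⟩⟩
    exact Finite.of_injective _ (Subgroup.inclusion_injective hle)
  · refine preprimitive_of_rel ⟨fun x y => ?_⟩ fun r hr hinv x y hxy hr0 => ?_
    · obtain ⟨g, hg⟩ := htrans (y - x)
      exact ⟨g, by rw [hg, add_sub_cancel]⟩
    have hadd : ∀ v x y, r x y → r (x + v) (y + v) := fun v x y h => by
      obtain ⟨g, hg⟩ := htrans v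
      simpa only [hg] using hinv g x y h
    let W : AddSubgroup Ω :=
      { carrier := {v | r v 0}
        zero_mem' := hr.refl 0
        add_mem' := fun {a b} ha hb => by
          have := hadd b _ _ ha
          rw [zero_add] at this
          exact hr.trans this hb
        neg_mem' := fun {a} ha => by
          have := hadd (-a) _ _ ha
          rw [zero_add, add_neg_cancel] at this
          exact hr.symm this }
    rcases hirr (AddSubgroup.toZModSubmodule p W) (fun a ha v hv => by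
      obtain ⟨g, hg⟩ := hex a ha 0
      have := hinv g _ _ hv
      rw [hg, hg, map_zero, add_zero, add_zero] at this
      exact this) with h | h
    · have h1 : x - y ∈ AddSubgroup.toZModSubmodule p W := by
        have := hadd (-y) _ _ hr0
        rw [add_neg_cancel, ← sub_eq_add_neg] at this
        exact this
      rw [h, Submodule.mem_bot, sub_eq_zero] at h1
      exact absurd h1 hxy
    · intro a b
      have ha : a ∈ AddSubgroup.toZModSubmodule p W := h ▸ Submodule.mem_top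
      have hb : b ∈ AddSubgroup.toZModSubmodule p W := h ▸ Submodule.mem_top
      exact hr.trans ha (hr.symm hb)
  · let φ : S →* (Ω ≃ₗ[ZMod p] Ω) := G₀.subtype.comp (lin.comp (S : Subgroup G).subtype)
    have hinj : Function.Injective φ := by
      rw [injective_iff_map_eq_one]
      intro s hs
      have hs' : lin s.1 = 1 := Subtype.ext hs
      obtain ⟨n, hn⟩ := S.isPGroup' s
      have hpow : ∀ m : ℕ, (s.1 ^ m) • (0 : Ω) = m • (s.1 • (0 : Ω)) := fun m => by
        induction m with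
        | zero => simp
        | succ m ih => rw [pow_succ', mul_smul, ih, hker _ hs', succ_nsmul]
      have h3 : ∀ (m : ℕ) (x : Ω), 2 ^ m • x = 0 → x = 0 := fun m => by
        induction m with
        | zero => simp
        | succ m ih =>
          intro x hx
          rw [pow_succ, mul_nsmul', two_nsmul] at hx
          exact h2 _ (ih _ hx)
      have h4 : s.1 • (0 : Ω) = 0 := h3 n _ (by
        rw [← hpow]
        have : s.1 ^ 2 ^ n = 1 := congrArg Subtype.val hn
        rw [this, one_smul])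
      exact Subtype.ext (eq_of_smul_eq_smul (α := Ω) fun x => by
        rw [hker _ hs', h4, add_zero]; exact (one_smul G x).symm)
    let e := MonoidHom.ofInjective hinj
    have he : ∀ (s : φ.range) (x : Ω), (e.symm s).1 • x = s.1 x + (e.symm s).1 • (0 : Ω) :=
      fun s x => by
        rw [hlin]
        congr 2
        exact congrArg Subtype.val (e.apply_symm_apply s)
    obtain ⟨v, hv⟩ := hH φ.range (by rintro _ ⟨s, rfl⟩; exact (lin s.1).2)
      (S.isPGroup'.of_equiv e) (fun s => (e.symm s).1 • (0 : Ω)) (fun s t => by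
        rw [map_mul, Subgroup.coe_mul, mul_smul, he, add_comm])
    have hfix : ∀ s ∈ (S : Subgroup G), s • (0 : Ω) = (lin s).1 v - v := fun s hs => by
      have := hv (e ⟨s, hs⟩)
      rw [e.symm_apply_apply] at this
      exact this
    obtain ⟨t, ht⟩ := hex _ hneg (-v - v)
    have ht' : ∀ x : Ω, t • x = -x + (-v - v) := ht
    have hcomm : ∀ s ∈ (S : Subgroup G), s * t = t * s := fun s hs =>
      eq_of_smul_eq_smul (α := Ω) fun x => by
        rw [mul_smul, mul_smul, ht', ht', hlin s, hlin s x, hfix s hs]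
        simp only [map_add, map_neg, map_sub]
        abel
    have htt : t * t = 1 := eq_of_smul_eq_smul (α := Ω) fun x => by
      rw [mul_smul, ht', ht', one_smul]; abel
    have hu : ∀ x : Ω, t • x = x → x = -v := fun x hx => by
      rw [ht'] at hx
      rw [eq_neg_iff_add_eq_zero]
      apply h2
      conv_lhs => enter [1, 1]; rw [← hx]
      abel
    have hord : orderOf t = 2 := by
      refine orderOf_eq_prime (by rw [pow_two, htt]) fun e => ?_
      obtain ⟨x, hx⟩ := exists_ne (-v)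
      exact hx (hu x (by rw [e, one_smul]))
    have hz : IsPGroup 2 (Subgroup.zpowers t) :=
      IsPGroup.of_card (n := 1) (by rw [Nat.card_zpowers, hord, pow_one])
    have hsup := IsPGroup.to_sup_of_normal_right' S.isPGroup' hz (fun s hs => by
      apply Subgroup.centralizer_le_normalizer
      rintro _ ⟨k, rfl⟩
      exact ((Commute.zpow_right (hcomm s hs) k).eq).symm)
    have hmem : t ∈ (S : Subgroup G) := by
      rw [← S.is_maximal' hsup le_sup_left]
      exact Subgroup.mem_sup_right (Subgroup.mem_zpowers t)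
    exact ⟨t, hmem, hcomm, hord, -v, by show t • _ = _; rw [ht']; abel, hu⟩
  · obtain ⟨v, hv⟩ := exists_ne (0 : Ω)
    obtain ⟨g, hg⟩ := htrans v
    have h1 : g ∈ lin.ker := Subtype.ext (LinearEquiv.ext fun x => by
      have := hlin g x
      rw [hg, hg, zero_add] at this
      exact (add_right_cancel this).symm)
    rw [e, Subgroup.mem_bot] at h1
    have := hg 0
    rw [h1, one_smul, zero_add] at this
    exact hv this.symm
  · refine Group.isSolvable_of_comm fun a b => Subtype.ext (Subtype.ext ?_)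
    refine eq_of_smul_eq_smul (α := Ω) fun x => ?_
    show (a.1.1 * b.1.1) • x = (b.1.1 * a.1.1) • x
    rw [mul_smul, mul_smul, hker _ a.1.2, hker _ b.1.2 x, hker _ b.1.2 (a.1.1 • x), hker _ a.1.2 x]
    abel

end Pool.Agent.Lib.MP_a7ce8b_al
end
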