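import Pool.Agent.Lib.MP_a7ce8b_al.Affine

/-! Countable groups with property (*) are locally embedded in finite primitive groups with (*). -/

namespace Pool.Agent.Lib.MP_a7ce8b_al

open MulAction
open scoped Pointwise

variable {G Ω : Type*} [Group G] [MulAction G Ω]

theorem star_of_one [Finite G] (Q : Sylow 2 G) {t : G} (ht : t ∈ (Q : Subgroup G))
    (hc : ∀ s ∈ (Q : Subgroup G), s * t = t * s) (h2 : orderOf t = 2) (hu : ∃! ω : Ω, t • ω = ω) :
    Star G Ω := by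
  have : Fact (Nat.Prime 2) := ⟨Nat.prime_two⟩
  intro S
  obtain ⟨g, rfl⟩ := exists_smul_eq G Q S
  obtain ⟨ω, hω, hω'⟩ := hu
  have hω2 : t • ω = ω := hω
  refine ⟨g * t * g⁻¹, ?_, fun s hs => ?_, ?_, g • ω, by simp [mul_smul, hω2], fun x hx => ?_⟩
  · rw [Sylow.coe_subgroup_smul]
    exact Subgroup.smul_mem_pointwise_smul t (MulAut.conj g) _ ht
  · rw [Sylow.coe_subgroup_smul, Subgroup.mem_pointwise_smul_iff_inv_smul_mem] at hs
    have := hc _ hs
    simp only [MulAut.smul_def, MulAut.conj_inv_apply] at this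
    have h3 := congrArg (fun x => g * x * g⁻¹) this
    simpa [mul_assoc] using h3
  · rw [← h2]
    exact orderOf_injective (MulAut.conj g).toMonoidHom (MulAut.conj g).injective t
  · rw [← inv_smul_eq_iff]
    apply hω'
    have hx' : (g * t * g⁻¹) • x = x := hx
    rwa [mul_smul, mul_smul, ← eq_inv_smul_iff] at hx'

theorem exists_forcing [Countable G] (hlf : IsLocallyFinite G) (hstar : Star G Ω) :
    ∃ (P : Subgroup G) (t : G), Finite P ∧ IsPGroup 2 P ∧ t ∈ P ∧ orderOf t = 2 ∧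
      (∃! ω : Ω, t • ω = ω) ∧
      ∀ P' : Subgroup G, Finite P' → IsPGroup 2 P' → P ≤ P' → ∀ s ∈ P', s * t = t * s := by
  by_contra hcon
  push Not at hcon
  obtain ⟨f, hf⟩ := exists_surjective_nat G
  have hstep : ∀ (g : G) (P : {P : Subgroup G // Finite P ∧ IsPGroup 2 P}),
      ∃ P' : {P : Subgroup G // Finite P ∧ IsPGroup 2 P}, P.1 ≤ P'.1 ∧
        (IsPGroup 2 (P.1 ⊔ Subgroup.closure {g} : Subgroup G) → g ∈ P'.1 ∧
          (orderOf g = 2 → (∃! ω : Ω, g • ω = ω) → ∃ s ∈ P'.1, s * g ≠ g * s)) := by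
    rintro g ⟨P, hP, hP2⟩
    by_cases h : IsPGroup 2 (P ⊔ Subgroup.closure {g} : Subgroup G)
    · have hfin := hlf.finite_sup P (Set.finite_singleton g)
      have hg : g ∈ P ⊔ Subgroup.closure {g} :=
        Subgroup.mem_sup_right (Subgroup.subset_closure rfl)
      by_cases h' : orderOf g = 2 ∧ ∃! ω : Ω, g • ω = ω
      · obtain ⟨P', h1, h2, h3, h4⟩ := hcon _ g hfin h hg h'.1 h'.2
        exact ⟨⟨P', h1, h2⟩, le_sup_left.trans h3, fun _ => ⟨h3 hg, fun _ _ => h4⟩⟩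
      · exact ⟨⟨_, hfin, h⟩, le_sup_left, fun _ => ⟨hg, fun a b => absurd ⟨a, b⟩ h'⟩⟩
    · exact ⟨⟨P, hP, hP2⟩, le_rfl, fun h' => absurd h' h⟩
  choose next hle hnext using hstep
  let P : ℕ → {P : Subgroup G // Finite P ∧ IsPGroup 2 P} := fun n =>
    Nat.rec ⟨⊥, inferInstance, IsPGroup.of_bot⟩ (fun n Q => next (f n) Q) n
  have hmono : Monotone fun n => (P n).1 := monotone_nat_of_le_succ fun n => hle _ _
  have hU : IsPGroup 2 (⨆ n, (P n).1 : Subgroup G) := by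
    rintro ⟨g, hg⟩
    obtain ⟨n, hn⟩ := (Subgroup.mem_iSup_of_directed hmono.directed_le).1 hg
    obtain ⟨k, hk⟩ := (P n).2.2 ⟨g, hn⟩
    have hk' : g ^ 2 ^ k = 1 := congrArg Subtype.val hk
    exact ⟨k, Subtype.ext hk'⟩
  obtain ⟨S, hS⟩ := hU.exists_le_sylow
  obtain ⟨t, ht, hc, h2, hu⟩ := hstar S
  obtain ⟨n, rfl⟩ := hf t
  have hPS : ∀ n, (P n).1 ≤ S := fun n => (le_iSup (fun n => (P n).1) n).trans hS
  obtain ⟨s, hs, hne⟩ := (hnext (f n) (P n) (S.isPGroup'.to_le (sup_le (hPS n)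
    ((Subgroup.closure_le _).2 (Set.singleton_subset_iff.2 ht))))).2 h2 hu
  exact hne (hc s (hPS (n + 1) hs))

theorem local_reduction [Countable G] [Nontrivial Ω] (hlf : IsLocallyFinite G)
    (hG : IsPreprimitive G Ω) (hstar : Star G Ω) (α : Ω) (H : Subgroup G) [Finite H] :
    ∃ K L : Subgroup G, Finite K ∧ H ≤ K ∧ L ≤ K ∧ K ⊓ stabilizer G α ≤ L ∧
      L ⊓ H ≤ stabilizer G α ∧ Nontrivial (K ⧸ L.subgroupOf K) ∧
      IsPreprimitive K (K ⧸ L.subgroupOf K) ∧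
      Star (toPermHom K (K ⧸ L.subgroupOf K)).range (K ⧸ L.subgroupOf K) := by
  have : Fact (Nat.Prime 2) := ⟨Nat.prime_two⟩
  obtain ⟨P, t, hP, hP2, ht, h2, ⟨ω, hω, hu⟩, hforce⟩ := exists_forcing hlf hstar
  obtain ⟨g, rfl⟩ := hG.toIsPretransitive.exists_smul_eq α ω
  obtain ⟨β, hβ⟩ := exists_ne α
  obtain ⟨n, rfl⟩ := hG.toIsPretransitive.exists_smul_eq α β
  let H₀ : Subgroup G := H ⊔ Subgroup.closure (insert n (insert g (P : Set G)))
  have : Finite H₀ := hlf.finite_sup H (((Set.toFinite _).insert g).insert n)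
  have hnH : n ∈ H₀ := Subgroup.mem_sup_right (Subgroup.subset_closure (Or.inl rfl))
  have hgH : g ∈ H₀ := Subgroup.mem_sup_right (Subgroup.subset_closure (Or.inr (Or.inl rfl)))
  have hPH : P ≤ H₀ := fun x hx =>
    Subgroup.mem_sup_right (Subgroup.subset_closure (Or.inr (Or.inr hx)))
  obtain ⟨K, L, hK, hHK, hLK, hmax, hLH, hKL⟩ := exists_section hlf
    ((isCoatom_stabilizer_iff_preprimitive G α).2 hG) H₀ fun h => hβ (h hnH)
  obtain ⟨hnt, hprim⟩ := section_preprimitive hLK hmax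
  refine ⟨K, L, hK, le_sup_left.trans hHK, hLK.le, hKL,
    (inf_le_inf_left _ le_sup_left).trans hLH, hnt, hprim, ?_⟩
  have htK : t ∈ K := hHK (hPH ht)
  have hone : OneFix (K ⧸ L.subgroupOf K) (⟨t, htK⟩ : K) :=
    section_oneFix hLK.le hKL (sq_of_orderOf h2) (hHK hgH) hω hu
  obtain ⟨Q, hQ⟩ := (hP2.comap_subtype (K := K)).exists_le_sylow
  let π := (toPermHom K (K ⧸ L.subgroupOf K)).rangeRestrict
  have hπ : Function.Surjective π := MonoidHom.rangeRestrict_surjective _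
  have : Finite (toPermHom K (K ⧸ L.subgroupOf K)).range := Finite.of_surjective π hπ
  have hQc := hforce ((Q : Subgroup K).map K.subtype)
    (Finite.of_equiv _ (Subgroup.equivMapOfInjective _ _ K.subtype_injective).toEquiv)
    (Q.isPGroup'.map _) fun x hx => ⟨⟨x, hHK (hPH hx)⟩, hQ hx, rfl⟩
  refine star_of_one (Q.mapSurjective hπ) (t := π ⟨t, htK⟩) ⟨_, hQ ht, rfl⟩ ?_ ?_ hone.2
  · rintro _ ⟨s, hs, rfl⟩
    rw [← map_mul, ← map_mul]
    exact congrArg π (Subtype.ext (hQc _ ⟨s, hs, rfl⟩))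
  · refine orderOf_eq_prime ?_ fun e => ?_
    · rw [← map_pow, ← π.map_one]
      exact congrArg π (Subtype.ext (by rw [← h2]; exact pow_orderOf_eq_one t))
    · obtain ⟨x, -, hx⟩ := hone.2
      obtain ⟨y, hy⟩ := exists_ne x
      apply hy
      apply hx
      show π ⟨t, htK⟩ • y = y
      rw [e, one_smul]

end Pool.Agent.Lib.MP_a7ce8b_al
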