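import Pool.Agent.Lib.MP_a7ce8b_al.Affine

/-! The cohomological condition for countable modules. -/

namespace Pool.Agent.Lib.MP_a7ce8b_al

variable {p : ℕ} [Fact p.Prime] {V : Type*} [AddCommGroup V] [Module (ZMod p) V]

theorem h1_of_finite (hp : p ≠ 2) {S : Subgroup (V ≃ₗ[ZMod p] V)} (hS : IsPGroup 2 S)
    (δ : S → V) (hδ : ∀ s t : S, δ (s * t) = δ s + s.1 (δ t)) (T : Subgroup S) [Finite T] :
    ∃ v : V, ∀ s ∈ T, δ s = s.1 v - v := by
  classical
  have : Fact (Nat.Prime 2) := ⟨Nat.prime_two⟩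
  let := Fintype.ofFinite T
  obtain ⟨n, hn⟩ := IsPGroup.iff_card.1 (hS.to_subgroup T)
  have hc : (Fintype.card T : ZMod p) ≠ 0 := by
    rw [← Nat.card_eq_fintype_card, hn]
    intro h
    have := (ZMod.natCast_eq_zero_iff _ p).1 h
    exact hp ((Nat.prime_dvd_prime_iff_eq Fact.out Nat.prime_two).1
      ((Fact.out : p.Prime).dvd_of_dvd_pow this))
  refine ⟨-((Fintype.card T : ZMod p)⁻¹ • ∑ t : T, δ t), fun s hs => ?_⟩
  have h1 : ∑ t : T, δ t = (Fintype.card T : ZMod p) • δ s + s.1 (∑ t : T, δ t) := by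
    conv_lhs => rw [← Equiv.sum_comp (Equiv.mulLeft (⟨s, hs⟩ : T))]
    simp only [Equiv.coe_mulLeft, Subgroup.coe_mul, hδ, Finset.sum_add_distrib, Finset.sum_const,
      Finset.card_univ, map_sum, Nat.cast_smul_eq_nsmul]
  rw [map_neg, map_smul, neg_sub_neg, ← smul_sub, eq_inv_smul_iff₀ hc, eq_sub_iff_add_eq, ← h1]

/-- The minimal condition implies vanishing of `H¹`. -/
theorem h1_of_min (hp : p ≠ 2) {S : Subgroup (V ≃ₗ[ZMod p] V)} (hS : IsPGroup 2 S)
    (hlf : IsLocallyFinite S) {S₀ : Subgroup (V ≃ₗ[ZMod p] V)} (hle : S₀ ≤ S) [Finite S₀]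
    (hfix : ∀ v : V, (∀ s ∈ S₀, s v = v) → ∀ s ∈ S, s v = v) : H1Trivial S := by
  intro δ hδ
  have : Finite (S₀.subgroupOf S) :=
    Finite.of_equiv _ (Subgroup.subgroupOfEquivOfLe hle).symm.toEquiv
  obtain ⟨v₀, hv₀⟩ := h1_of_finite hp hS δ hδ (S₀.subgroupOf S)
  refine ⟨v₀, fun s => ?_⟩
  have := hlf.finite_sup (S₀.subgroupOf S) (Set.finite_singleton s)
  obtain ⟨v₁, hv₁⟩ := h1_of_finite hp hS δ hδ (S₀.subgroupOf S ⊔ Subgroup.closure {s})
  have h1 := hfix (v₁ - v₀) (fun a ha => by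
    have e0 := hv₀ ⟨a, hle ha⟩ ha
    have e1 := hv₁ ⟨a, hle ha⟩ (Subgroup.mem_sup_left ha)
    rw [map_sub, sub_eq_sub_iff_sub_eq_sub, ← e0, ← e1]) s.1 s.2
  rw [hv₁ s (Subgroup.mem_sup_right (Subgroup.subset_closure rfl)), ← sub_eq_sub_iff_sub_eq_sub,
    ← map_sub, h1]

theorem min_of_h1 [Countable V] {S : Subgroup (V ≃ₗ[ZMod p] V)}
    (hlf : IsLocallyFinite S) (hH : ∀ S' ≤ S, H1Trivial S') :
    ∃ S₀ ≤ S, Finite S₀ ∧ ∀ v : V, (∀ s ∈ S₀, s v = v) → ∀ s ∈ S, s v = v := by
  classical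
  by_contra hcon
  push Not at hcon
  have hstep : ∀ T : {T : Subgroup S // Finite T}, ∃ T' : {T : Subgroup S // Finite T},
      T.1 ≤ T'.1 ∧ ∃ v : V, (∀ s ∈ T.1, s.1 v = v) ∧ ∃ s ∈ T'.1, s.1 v ≠ v := by
    rintro ⟨T, hT⟩
    obtain ⟨v, hv, s, hs, hsv⟩ := hcon (T.map S.subtype) (Subgroup.map_subtype_le T)
      (Finite.of_equiv _ (Subgroup.equivMapOfInjective _ _ S.subtype_injective).toEquiv)
    exact ⟨⟨T ⊔ Subgroup.closure {⟨s, hs⟩}, hlf.finite_sup T (Set.finite_singleton _)⟩,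
      le_sup_left, v, fun a ha => hv _ ⟨a, ha, rfl⟩, ⟨s, hs⟩,
      Subgroup.mem_sup_right (Subgroup.subset_closure rfl), hsv⟩
  choose next hle v hv s hs hsv using hstep
  let T : ℕ → {T : Subgroup S // Finite T} := fun n => next^[n] ⟨⊥, inferInstance⟩
  have hT : ∀ n, T (n + 1) = next (T n) := fun n => Function.iterate_succ_apply' _ _ _
  have hmono : Monotone fun n => (T n).1 :=
    monotone_nat_of_le_succ fun n => by rw [hT]; exact hle _
  let U : Subgroup S := ⨆ n, (T n).1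
  have hU : ∀ a : U.map S.subtype, ∃ n, ∃ b ∈ (T n).1, b.1 = a.1 := by
    rintro ⟨_, b, hb, rfl⟩
    obtain ⟨n, hn⟩ := (Subgroup.mem_iSup_of_directed hmono.directed_le).1 hb
    exact ⟨n, b, hn, rfl⟩
  choose m hm using hU
  let w : Set ℕ → ℕ → V := fun ε n => ∑ i ∈ Finset.range n, if i ∈ ε then v (T i) else 0
  have hw : ∀ ε n (b : S), b ∈ (T n).1 → ∀ k, n ≤ k →
      b.1 (w ε k) - w ε k = b.1 (w ε n) - w ε n := by
    intro ε n b hb k hk
    induction k, hk using Nat.le_induction with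
    | base => rfl
    | succ k hk ih =>
      rw [← ih]
      simp only [w, Finset.sum_range_succ, map_add]
      split_ifs
      · rw [hv _ b (hmono hk hb)]; abel
      · simp
  let δ : Set ℕ → U.map S.subtype → V := fun ε a => a.1 (w ε (m a)) - w ε (m a)
  have hδ' : ∀ ε (a : U.map S.subtype) (b : S) n, b ∈ (T n).1 → b.1 = a.1 →
      δ ε a = a.1 (w ε n) - w ε n := by
    intro ε a b n hb e
    obtain ⟨b', hb', e'⟩ := hm a
    have : b = b' := Subtype.ext (e.trans e'.symm)
    subst this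
    simp only [δ, ← e]
    rw [← hw ε _ b hb' _ (le_max_left _ n), hw ε _ b hb _ (le_max_right _ n)]
  have hδ : ∀ ε (a b : U.map S.subtype), δ ε (a * b) = δ ε a + a.1 (δ ε b) := by
    intro ε a b
    obtain ⟨a', ha, ea⟩ := hm a
    obtain ⟨b', hb, eb⟩ := hm b
    have ha' := hmono (le_max_left _ (m b)) ha
    have hb' := hmono (le_max_right (m a) _) hb
    rw [hδ' ε a a' _ ha' ea, hδ' ε b b' _ hb' eb,
      hδ' ε (a * b) (a' * b') _ (mul_mem ha' hb') (by rw [Subgroup.coe_mul, ea, eb]; rfl), map_sub]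
    show a.1 (b.1 _) - _ = _
    abel
  choose x hx using fun ε => hH _ (Subgroup.map_subtype_le U) (δ ε) (hδ ε)
  have hinj : Function.Injective x := by
    intro ε ε' e
    have key : ∀ n, (n ∈ ε ↔ n ∈ ε') := by
      intro n
      induction n using Nat.strong_induction_on with
      | _ n ih =>
        have hwn : w ε n = w ε' n := Finset.sum_congr rfl fun i hi => by
          simp only [ih i (Finset.mem_range.1 hi)]
        have hs' : s (T n) ∈ (T (n + 1)).1 := by rw [hT]; exact hs _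
        let a : U.map S.subtype := ⟨(s (T n)).1, _, Subgroup.mem_iSup_of_mem (n + 1) hs', rfl⟩
        have e1 : δ ε a = δ ε' a := by rw [hx, hx, e]
        rw [hδ' ε a _ _ hs' rfl, hδ' ε' a _ _ hs' rfl] at e1
        simp only [w, Finset.sum_range_succ, map_add] at e1
        simp only [w] at hwn
        rw [hwn] at e1
        have hne := hsv (T n)
        by_cases h1 : n ∈ ε <;> by_cases h2 : n ∈ ε'
        · exact iff_of_true h1 h2
        · simp only [h1, h2, if_true, if_false, map_zero, add_zero] at e1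
          refine absurd ?_ hne
          have : a.1 (v (T n)) - v (T n) = 0 := by linear_combination (norm := abel1) e1
          exact sub_eq_zero.1 this
        · simp only [h1, h2, if_true, if_false, map_zero, add_zero] at e1
          refine absurd ?_ hne
          have : a.1 (v (T n)) - v (T n) = 0 := by linear_combination (norm := abel1) -e1
          exact sub_eq_zero.1 this
        · exact iff_of_false h1 h2
    exact Set.ext key
  have : Countable (Set ℕ) := hinj.countable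
  obtain ⟨f, hf⟩ := exists_surjective_nat (Set ℕ)
  exact Function.cantor_surjective f hf

end Pool.Agent.Lib.MP_a7ce8b_al
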