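import Mathlib

/-! Locally finite permutation groups with one-point-fixing 2-central involutions. -/

namespace Pool.Agent.Lib.MP_a7ce8b_al

/-- Every finitely generated subgroup is finite. -/
def IsLocallyFinite (G : Type*) [Group G] : Prop :=
  ∀ s : Finset G, Finite (Subgroup.closure (s : Set G))

/-- Every finitely generated subgroup is soluble. -/
def IsLocallySoluble (G : Type*) [Group G] : Prop :=
  ∀ s : Finset G, Group.IsSolvable (Subgroup.closure (s : Set G))

/-- Property (*): the centre of every Sylow (that is, maximal) 2-subgroup contains an involution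
that fixes exactly one point. -/
def Star (G Ω : Type*) [Group G] [MulAction G Ω] : Prop :=
  ∀ S : Sylow 2 G, ∃ t ∈ (S : Subgroup G), (∀ s ∈ (S : Subgroup G), s * t = t * s) ∧
    orderOf t = 2 ∧ ∃! ω : Ω, t • ω = ω

/-- `G₀` is an irreducible group of linear maps of `V`. -/
def IsIrreducibleLinear {F V : Type*} [Field F] [AddCommGroup V] [Module F V]
    (G₀ : Subgroup (V ≃ₗ[F] V)) : Prop :=
  ∀ W : Submodule F V, (∀ a ∈ G₀, ∀ x ∈ W, a x ∈ W) → W = ⊥ ∨ W = ⊤

/-- `H¹(S, V) = 0`: every crossed homomorphism `S → V` is principal. -/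
def H1Trivial {F V : Type*} [Field F] [AddCommGroup V] [Module F V]
    (S : Subgroup (V ≃ₗ[F] V)) : Prop :=
  ∀ δ : S → V, (∀ s t : S, δ (s * t) = δ s + s.1 (δ t)) → ∃ v : V, ∀ s : S, δ s = s.1 v - v

/-- The maps of `V` induced by `G` are exactly the affine maps `x ↦ a x + v` with `a ∈ G₀`,
`v ∈ V`. -/
def ActsAsAffine (G : Type*) {F V : Type*} [Group G] [Field F] [AddCommGroup V] [Module F V]
    [MulAction G V] (G₀ : Subgroup (V ≃ₗ[F] V)) : Prop :=
  ∀ f : V → V, (∃ g : G, ∀ x, g • x = f x) ↔ ∃ a ∈ G₀, ∃ v : V, ∀ x, f x = a x + v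

/-- The group of all permutations of `C(Z, Γ)` (locally constant maps) of the form
`ω ↦ (z ↦ f z • ω (k⁻¹ • z))` with `f ∈ C(Z, L)` and `k ∈ K`. -/
def boolWreath (L Γ K Z : Type*) [Group L] [MulAction L Γ] [Group K] [TopologicalSpace Z]
    [MulAction K Z] [ContinuousConstSMul K Z] : Subgroup (Equiv.Perm (LocallyConstant Z Γ)) where
  carrier := {φ | ∃ (f : LocallyConstant Z L) (k : K), ∀ ω z, φ ω z = f z • ω (k⁻¹ • z)}
  one_mem' := ⟨1, 1, fun ω z => by simp⟩
  mul_mem' := by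
    rintro φ ψ ⟨f, k, hφ⟩ ⟨g, l, hψ⟩
    refine ⟨f * g.comap ⟨fun z => k⁻¹ • z, continuous_const_smul _⟩, k * l, fun ω z => ?_⟩
    simp [hφ, hψ, mul_smul]
  inv_mem' := by
    rintro φ ⟨f, k, hφ⟩
    refine ⟨(f.comap ⟨fun z => k • z, continuous_const_smul _⟩)⁻¹, k⁻¹, fun ω z => ?_⟩
    have := hφ (φ⁻¹ ω) (k • z)
    simp only [Equiv.Perm.coe_inv, Equiv.apply_symm_apply, inv_smul_smul] at this
    simp [this]

end Pool.Agent.Lib.MP_a7ce8b_al
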