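import Pool.Agent.Lib.MP_a7ce8b_al.Affine

-- part Pool.Agent.Lib.MP_a7ce8b_al.Bool
section

/-! Boolean-power wreath products. -/

namespace Pool.Agent.Lib.MP_a7ce8b_al

open MulAction Filter Topology

section
variable {L Γ K Z : Type*} [Group L] [MulAction L Γ] [Group K] [TopologicalSpace Z]
  [MulAction K Z] [ContinuousConstSMul K Z]

/-- Translate of a locally constant function. -/
def tr {X : Type*} (k : K) (f : LocallyConstant Z X) : LocallyConstant Z X :=
  f.comap ⟨fun z => k • z, continuous_const_smul _⟩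

@[simp] theorem tr_apply {X : Type*} (k : K) (f : LocallyConstant Z X) (z : Z) :
    tr k f z = f (k • z) := rfl

/-- The basic map. -/
def act (f : LocallyConstant Z L) (k : K) (ω : LocallyConstant Z Γ) : LocallyConstant Z Γ :=
  ⟨fun z => f z • ω (k⁻¹ • z),
    f.isLocallyConstant.comp₂ (tr k⁻¹ ω).isLocallyConstant fun a b => a • b⟩

@[simp] theorem act_apply (f : LocallyConstant Z L) (k : K) (ω : LocallyConstant Z Γ) (z : Z) :
    act f k ω z = f z • ω (k⁻¹ • z) := rfl

variable (Γ) in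
/-- The basic element. -/
def mkW (f : LocallyConstant Z L) (k : K) : boolWreath L Γ K Z :=
  ⟨{ toFun := act f k
     invFun := act (tr k f)⁻¹ k⁻¹
     left_inv := fun ω => by ext z; simp
     right_inv := fun ω => by ext z; simp }, f, k, fun _ _ => rfl⟩

@[simp] theorem mkW_smul (f : LocallyConstant Z L) (k : K) (ω : LocallyConstant Z Γ) (z : Z) :
    (mkW Γ f k • ω) z = f z • ω (k⁻¹ • z) := rfl

open Classical in
/-- Gluing along a clopen set. -/
noncomputable def pw {X : Type*} {W : Set Z} (hW : IsClopen W) (a b : LocallyConstant Z X) :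
    LocallyConstant Z X :=
  ⟨fun z => if z ∈ W then a z else b z, (IsLocallyConstant.iff_eventually_eq _).2 fun z => by
    by_cases hz : z ∈ W
    · filter_upwards [hW.isOpen.mem_nhds hz, a.isLocallyConstant.eventually_eq z] with y h1 h2
      rw [if_pos h1, if_pos hz]
      exact h2
    · filter_upwards [hW.compl.isOpen.mem_nhds hz, b.isLocallyConstant.eventually_eq z] with y h1 h2
      rw [if_neg h1, if_neg hz]
      exact h2⟩

theorem pw_pos {X : Type*} {W : Set Z} (hW : IsClopen W) (a b : LocallyConstant Z X) {z : Z}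
    (hz : z ∈ W) : pw hW a b z = a z := if_pos hz

theorem pw_neg {X : Type*} {W : Set Z} (hW : IsClopen W) (a b : LocallyConstant Z X) {z : Z}
    (hz : z ∉ W) : pw hW a b z = b z := if_neg hz

theorem exists_stab_move [FaithfulSMul L Γ] [Nontrivial Γ] (hL : IsPreprimitive L Γ)
    (hnr : ∃ (l : L) (γ : Γ), l ≠ 1 ∧ l • γ = γ) {γ γ' : Γ} (h : γ ≠ γ') :
    ∃ l : L, l • γ = γ ∧ l • γ' ≠ γ' := by
  by_contra hcon
  push Not at hcon
  have h1 : stabilizer L γ = stabilizer L γ' := by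
    rcases ((isCoatom_stabilizer_iff_preprimitive L γ).2 hL).le_iff.1
      (show stabilizer L γ ≤ stabilizer L γ' from hcon) with h2 | h2
    · exact absurd h2 ((isCoatom_stabilizer_iff_preprimitive L γ').2 hL).1
    · exact h2.symm
  have := rel_total hL (fun a b => stabilizer L a = stabilizer L b)
    ⟨fun _ => rfl, Eq.symm, Eq.trans⟩ (fun g a b e => by
      rw [stabilizer_smul_eq_stabilizer_map_conj, stabilizer_smul_eq_stabilizer_map_conj, e]) h h1
  obtain ⟨l, δ, hl, hδ⟩ := hnr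
  refine hl (eq_of_smul_eq_smul (α := Γ) fun x => ?_)
  have h3 : l ∈ stabilizer L δ := hδ
  rw [this δ x] at h3
  rw [one_smul]
  exact h3

theorem exists_fun (hL : IsPretransitive L Γ) (ω ω' : LocallyConstant Z Γ) :
    ∃ f : LocallyConstant Z L, ∀ z, f z • ω z = ω' z := by
  choose c hc using hL.exists_smul_eq
  exact ⟨⟨fun z => c (ω z) (ω' z), ω.isLocallyConstant.comp₂ ω'.isLocallyConstant c⟩,
    fun z => hc _ _⟩

theorem bool_preprimitive [CompactSpace Z] [IsMinimal K Z] [FaithfulSMul L Γ] [Nontrivial Γ]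
    (hL : IsPreprimitive L Γ) (hnr : ∃ (l : L) (γ : Γ), l ≠ 1 ∧ l • γ = γ) :
    IsPreprimitive (boolWreath L Γ K Z) (LocallyConstant Z Γ) := by
  refine preprimitive_of_rel ⟨fun ω ω' => ?_⟩ fun r hr hinv ω ω' hne hr0 => ?_
  · obtain ⟨f, hf⟩ := exists_fun hL.toIsPretransitive ω ω'
    exact ⟨mkW Γ f 1, LocallyConstant.ext fun z => by simp [hf]⟩
  obtain ⟨z₀, hz₀⟩ := DFunLike.ne_iff.1 hne
  let Y : Set Z := {z | ω z = ω z₀} ∩ {z | ω' z = ω' z₀}
  have hY : IsClopen Y :=
    (ω.isLocallyConstant.isClopen_fiber _).inter (ω'.isLocallyConstant.isClopen_fiber _)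
  obtain ⟨l, hl1, hl2⟩ := exists_stab_move hL hnr hz₀
  let c : Γ → LocallyConstant Z Γ := LocallyConstant.const Z
  have claim1 : ∀ (W : Set Z) (hW : IsClopen W), W ⊆ Y → ∀ (η : LocallyConstant Z Γ) (a b : Γ),
      r (pw hW (c a) η) (pw hW (c b) η) := by
    intro W hW hWY η a b
    have hmk : ∀ (g : L) (a : Γ) (η : LocallyConstant Z Γ),
        mkW Γ (pw hW (LocallyConstant.const Z g) 1) (1 : K) • pw hW (c a) η = pw hW (c (g • a)) η :=
      fun g a η => LocallyConstant.ext fun z => by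
        by_cases hz : z ∈ W <;> simp [pw_pos, pw_neg, hz, c]
    have e1 : pw hW (c (ω z₀)) ω = ω := LocallyConstant.ext fun z => by
      by_cases hz : z ∈ W
      · rw [pw_pos _ _ _ hz]; exact ((hWY hz).1).symm
      · rw [pw_neg _ _ _ hz]
    have e2 : pw hW (c (ω' z₀)) ω' = ω' := LocallyConstant.ext fun z => by
      by_cases hz : z ∈ W
      · rw [pw_pos _ _ _ hz]; exact ((hWY hz).2).symm
      · rw [pw_neg _ _ _ hz]
    have h1 := hinv (mkW Γ (pw hW (LocallyConstant.const Z l) 1) (1 : K)) _ _ hr0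
    conv at h1 => rw [← e1, ← e2, hmk, hmk, hl1, e1]
    have h2 : r (pw hW (c (ω' z₀)) ω') (pw hW (c (l • ω' z₀)) ω') := by
      rw [e2]; exact hr.trans (hr.symm hr0) h1
    have h3 := rel_total hL (fun a b => r (pw hW (c a) ω') (pw hW (c b) ω'))
      ⟨fun _ => hr.refl _, fun h => hr.symm h, fun h h' => hr.trans h h'⟩
      (fun g a b h => by rw [← hmk, ← hmk]; exact hinv _ _ _ h) hl2.symm h2 a b
    obtain ⟨f, hf⟩ := exists_fun hL.toIsPretransitive ω' η
    have hmk' : ∀ a : Γ, mkW Γ (pw hW 1 f) (1 : K) • pw hW (c a) ω' = pw hW (c a) η :=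
      fun a => LocallyConstant.ext fun z => by
        by_cases hz : z ∈ W <;> simp [pw_pos, pw_neg, hz, c, hf]
    rw [← hmk', ← hmk']
    exact hinv _ _ _ h3
  have claim2 : ∀ (k : K) (W : Set Z) (hW : IsClopen W), (∀ z ∈ W, k • z ∈ Y) →
      ∀ (η : LocallyConstant Z Γ) (a b : Γ), r (pw hW (c a) η) (pw hW (c b) η) := by
    intro k W hW hWY η a b
    have hW' : IsClopen ((fun z => k⁻¹ • z) ⁻¹' W) := hW.preimage (continuous_const_smul _)
    have h1 := claim1 _ hW' (fun z hz => by simpa using hWY _ hz) (tr k⁻¹ η) a b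
    have hmk : ∀ a : Γ, mkW Γ (1 : LocallyConstant Z L) k⁻¹ • pw hW' (c a) (tr k⁻¹ η) =
        pw hW (c a) η := fun a => LocallyConstant.ext fun z => by
      by_cases hz : z ∈ W
      · rw [mkW_smul, pw_pos _ _ _ hz, pw_pos _ _ _ (by simpa using hz)]; simp [c]
      · rw [mkW_smul, pw_neg _ _ _ hz, pw_neg _ _ _ (by simpa using hz)]; simp
    rw [← hmk, ← hmk]
    exact hinv _ _ _ h1
  intro ξ ξ'
  have key := isCompact_univ.induction_on (p := fun s : Set Z => ∃ W, IsClopen W ∧ s ⊆ W ∧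
      ∀ (W' : Set Z) (hW' : IsClopen W'), W' ⊆ W → ∀ η : LocallyConstant Z Γ,
        (∀ z ∈ W', η z = ξ z) → r η (pw hW' ξ' η)) ?_ ?_ ?_ ?_
  · obtain ⟨W, -, hW, h⟩ := key
    have := h _ isClopen_univ hW ξ fun _ _ => rfl
    rwa [show pw isClopen_univ ξ' ξ = ξ' from
      LocallyConstant.ext fun z => pw_pos _ _ _ (Set.mem_univ z)] at this
  · refine ⟨∅, isClopen_empty, subset_rfl, fun W' hW' h η _ => ?_⟩
    rw [show pw hW' ξ' η = η from LocallyConstant.ext fun z => pw_neg _ _ _ fun hz => h hz]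
    exact hr.refl _
  · rintro s t hst ⟨W, h1, h2, h3⟩
    exact ⟨W, h1, hst.trans h2, h3⟩
  · rintro s t ⟨W₁, h1, h2, h3⟩ ⟨W₂, h4, h5, h6⟩
    refine ⟨W₁ ∪ W₂, h1.union h4, Set.union_subset_union h2 h5, fun W' hW' h η hη => ?_⟩
    have e1 := h3 _ (hW'.inter h1) Set.inter_subset_right η fun z hz => hη z hz.1
    have e2 := h6 _ (hW'.diff h1) (fun z hz => (h hz.1).resolve_left hz.2)
      (pw (hW'.inter h1) ξ' η) fun z hz => by
        rw [pw_neg _ _ _ fun h' => hz.2 h'.2]; exact hη z hz.1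
    have e3 : pw (hW'.diff h1) ξ' (pw (hW'.inter h1) ξ' η) = pw hW' ξ' η := by
      refine LocallyConstant.ext fun z => ?_
      by_cases hz : z ∈ W' <;> by_cases hz' : z ∈ W₁ <;> simp [pw_pos, pw_neg, hz, hz']
    exact hr.trans e1 (e3 ▸ e2)
  · intro z _
    obtain ⟨k, hk⟩ := hY.isOpen.exists_smul_mem K z ⟨z₀, rfl, rfl⟩
    let W : Set Z := (fun z => k • z) ⁻¹' Y ∩ ({y | ξ y = ξ z} ∩ {y | ξ' y = ξ' z})
    have hW : IsClopen W := (hY.preimage (continuous_const_smul _)).inter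
      ((ξ.isLocallyConstant.isClopen_fiber _).inter (ξ'.isLocallyConstant.isClopen_fiber _))
    refine ⟨W, mem_nhdsWithin_of_mem_nhds (hW.isOpen.mem_nhds ⟨hk, rfl, rfl⟩), W, hW, subset_rfl,
      fun W' hW' h η hη => ?_⟩
    have := claim2 k W' hW' (fun y hy => (h hy).1) η (ξ z) (ξ' z)
    rwa [show pw hW' (c (ξ z)) η = η from LocallyConstant.ext fun y => by
        by_cases hy : y ∈ W'
        · rw [pw_pos _ _ _ hy, hη y hy]; exact (h hy).2.1.symm
        · rw [pw_neg _ _ _ hy],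
      show pw hW' (c (ξ' z)) η = pw hW' ξ' η from LocallyConstant.ext fun y => by
        by_cases hy : y ∈ W'
        · rw [pw_pos _ _ _ hy, pw_pos _ _ _ hy]; exact (h hy).2.2.symm
        · rw [pw_neg _ _ _ hy, pw_neg _ _ _ hy]] at this

theorem bool_locallyFinite [Finite L] (hK : IsLocallyFinite K) :
    IsLocallyFinite (boolWreath L Γ K Z) := by
  intro s
  have hch : ∀ φ : boolWreath L Γ K Z, ∃ (f : LocallyConstant Z L) (k : K),
    ∀ ω z, φ.1 ω z = f z • ω (k⁻¹ • z) := fun φ => φ.2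
  choose f k hfk using hch
  let K₀ : Subgroup K := Subgroup.closure (k '' (s : Set _))
  have : Finite K₀ := hK.finite_closure (s.finite_toSet.image k)
  let e : Z → (s × K₀ → L) := fun z q => f q.1 (q.2.1 • z)
  let sh : K₀ → (s × K₀ → L) → (s × K₀ → L) := fun κ v q => v (q.1, q.2 * κ)
  have hsh : ∀ (κ : K₀) z, e (κ.1 • z) = sh κ (e z) := fun κ z => by
    funext q
    simp [e, sh, mul_smul]
  let P : Subgroup (boolWreath L Γ K Z) :=
    { carrier := {φ | ∃ q : ((s × K₀ → L) → L) × K₀, ∀ ω z, φ.1 ω z = q.1 (e z) • ω (q.2.1⁻¹ • z)}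
      one_mem' := ⟨(fun _ => 1, 1), fun ω z => by simp⟩
      mul_mem' := by
        rintro φ ψ ⟨⟨F, κ⟩, h1⟩ ⟨⟨F', κ'⟩, h2⟩
        refine ⟨(fun v => F v * F' (sh κ⁻¹ v), κ * κ'), fun ω z => ?_⟩
        simp [h1, h2, mul_smul, ← hsh]
      inv_mem' := by
        rintro φ ⟨⟨F, κ⟩, h1⟩
        refine ⟨(fun v => (F (sh κ v))⁻¹, κ⁻¹), fun ω z => ?_⟩
        have := h1 (φ.1⁻¹ ω) (κ.1 • z)
        simp only [Equiv.Perm.coe_inv, Equiv.apply_symm_apply, inv_smul_smul] at this
        simp [this, ← hsh] }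
  have : Finite P := by
    have hch : ∀ φ : P, ∃ q : ((s × K₀ → L) → L) × K₀,
      ∀ ω z, φ.1.1 ω z = q.1 (e z) • ω (q.2.1⁻¹ • z) := fun φ => φ.2
    choose q hq using hch
    refine Finite.of_injective q fun φ ψ h => Subtype.ext (Subtype.ext (Equiv.ext fun ω =>
      LocallyConstant.ext fun z => by rw [hq, hq, h]))
  have hle : Subgroup.closure (s : Set _) ≤ P := (Subgroup.closure_le _).2 fun φ hφ =>
    ⟨(fun v => v (⟨φ, hφ⟩, 1), ⟨k φ, Subgroup.subset_closure ⟨φ, hφ, rfl⟩⟩), fun ω z => by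
      simp [hfk, e]⟩
  exact Finite.of_injective _ (Subgroup.inclusion_injective hle)

theorem bool_star [Finite L] [FaithfulSMul L Γ] [Nontrivial (LocallyConstant Z Γ)]
    (hL : Star L Γ) (z₀ : Z) (lam : Z → Ultrafilter K)
    (ha : ∀ A : Set K, IsOpen {z | A ∈ lam z})
    (hb : ∀ (k : K) z, lam (k • z) = (lam z).map fun x => k * x)
    (hc : ∀ z, Tendsto (fun x : K => x • z₀) (lam z) (𝓝 z)) :
    Star (boolWreath L Γ K Z) (LocallyConstant Z Γ) := by
  intro S
  let R : K → K → L → Prop := fun x y l => ∃ φ ∈ (S : Subgroup (boolWreath L Γ K Z)),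
    ∃ (f : LocallyConstant Z L) (k : K), (∀ ω z, φ.1 ω z = f z • ω (k⁻¹ • z)) ∧ y = k * x ∧
      l = f (y • z₀)
  have R1 : ∀ x, R x x 1 := fun x => ⟨1, one_mem _, 1, 1, fun ω z => by simp, by simp, rfl⟩
  have R2 : ∀ {x y l}, R x y l → R y x l⁻¹ := by
    rintro x y l ⟨φ, hφ, f, k, h, rfl, rfl⟩
    refine ⟨φ⁻¹, inv_mem hφ, (tr k f)⁻¹, k⁻¹, fun ω z => ?_, by simp, by simp [mul_smul]⟩
    have := h (φ.1⁻¹ ω) (k • z)
    simp only [Equiv.Perm.coe_inv, Equiv.apply_symm_apply, inv_smul_smul] at this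
    simp [this]
  have R3 : ∀ {x y w l l'}, R x y l → R y w l' → R x w (l' * l) := by
    rintro x y w l l' ⟨φ, hφ, f, k, h, rfl, rfl⟩ ⟨ψ, hψ, g, k', h', rfl, rfl⟩
    refine ⟨ψ * φ, mul_mem hψ hφ, g * tr k'⁻¹ f, k' * k, fun ω z => ?_, by simp [mul_assoc],
      by simp [mul_smul]⟩
    simp [h, h', mul_smul]
  let J : L → Prop := fun t => orderOf t = 2 ∧ ∃! γ : Γ, t • γ = γ
  have hJ : ∀ g s, J s → J (g * s * g⁻¹) := by
    rintro g s ⟨h1, ω, h2, h3⟩
    have h2' : s • ω = ω := h2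
    refine ⟨?_, g • ω, by simp [mul_smul, h2'], fun x hx => ?_⟩
    · rw [← h1]
      exact orderOf_injective (MulAut.conj g).toMonoidHom (MulAut.conj g).injective s
    · rw [← inv_smul_eq_iff]
      apply h3
      have hx' : (g * s * g⁻¹) • x = x := hx
      rwa [mul_smul, mul_smul, ← eq_inv_smul_iff] at hx'
  have h0 : ∀ x, ∃ t, J t ∧ ∀ l, R x x l → l * t = t * l := by
    intro x
    let H : Subgroup L :=
      { carrier := {l | R x x l}
        one_mem' := R1 x
        mul_mem' := fun ha hb => R3 hb ha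
        inv_mem' := R2 }
    have hH : IsPGroup 2 H := by
      rintro ⟨_, φ, hφ, f, k, h, hk, rfl⟩
      have hk1 : k = 1 := by simpa using hk
      subst hk1
      obtain ⟨n, hn⟩ := S.isPGroup' ⟨φ, hφ⟩
      have hn' : φ.1 ^ 2 ^ n = 1 := congrArg (fun x => x.1.1) hn
      have hpow : ∀ (m : ℕ) ω z, (φ.1 ^ m) ω z = f z ^ m • ω z := fun m => by
        induction m with
        | zero => simp
        | succ m ih => intro ω z; rw [pow_succ', pow_succ', mul_smul, ← ih]; simp [h]
      refine ⟨n, Subtype.ext (eq_of_smul_eq_smul (α := Γ) fun γ => ?_)⟩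
      have := hpow (2 ^ n) (LocallyConstant.const Z γ) (x • z₀)
      rw [hn'] at this
      simpa using this.symm
    obtain ⟨Q, hQ⟩ := hH.exists_le_sylow
    obtain ⟨t, -, h1, h2, h3⟩ := hL Q
    exact ⟨t, ⟨h2, h3⟩, fun l hl => h1 l (hQ hl)⟩
  choose t₀ ht₀ ht₀' using h0
  let σ : Setoid K := ⟨fun x y => ∃ l, R x y l, fun x => ⟨1, R1 x⟩, fun ⟨_, h⟩ => ⟨_, R2 h⟩,
    fun ⟨_, h⟩ ⟨_, h'⟩ => ⟨_, R3 h h'⟩⟩
  let rep : K → K := fun x => (Quotient.mk σ x).out
  have hrep : ∀ x, ∃ l, R (rep x) x l := fun x => Quotient.mk_out (s := σ) x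
  choose c hc' using hrep
  let t : K → L := fun x => c x * t₀ (rep x) * (c x)⁻¹
  have htJ : ∀ x, J (t x) := fun x => hJ _ _ (ht₀ _)
  have hteq : ∀ {x y l}, R x y l → t y = l * t x * l⁻¹ := by
    intro x y l h
    have e : rep x = rep y := congrArg Quotient.out (Quotient.sound (s := σ) ⟨l, h⟩)
    have h1 := R3 (R3 (hc' x) h) (e ▸ R2 (hc' y))
    have h2 := ht₀' _ _ h1
    simp only [t, ← e]
    calc c y * t₀ (rep x) * (c y)⁻¹
        = c y * (t₀ (rep x) * ((c y)⁻¹ * (l * c x))) * (c x)⁻¹ * l⁻¹ := by group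
      _ = _ := by rw [← h2]; group
  have hT : ∀ z, ∃ a, ∀ᶠ x in (lam z : Filter K), t x = a := fun z => by
    obtain ⟨a, ha⟩ := ((lam z).map t).eq_pure_of_finite
    have : {a} ∈ (lam z).map t := by rw [ha]; exact Ultrafilter.mem_pure.2 rfl
    exact ⟨a, this⟩
  choose T hT using hT
  have hTu : ∀ z a, (∀ᶠ x in (lam z : Filter K), t x = a) → T z = a := fun z a h => by
    obtain ⟨x, h1, h2⟩ := ((hT z).and h).exists
    exact h1.symm.trans h2
  have hTlc : IsLocallyConstant T := IsLocallyConstant.iff_isOpen_fiber.2 fun a => by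
    convert ha {x | t x = a} using 1
    ext z
    exact ⟨fun h => by have := hT z; rw [show T z = a from h] at this; exact this, hTu z a⟩
  have hTJ : ∀ z, J (T z) := fun z => by
    obtain ⟨x, hx⟩ := (hT z).exists
    exact hx ▸ htJ x
  let τ : boolWreath L Γ K Z := mkW Γ ⟨T, hTlc⟩ 1
  have hτ : ∀ (ω : LocallyConstant Z Γ) z, (τ • ω) z = T z • ω z := fun ω z => by simp [τ]
  have hcomm : ∀ φ ∈ (S : Subgroup (boolWreath L Γ K Z)), φ * τ = τ * φ := by
    intro φ hφ
    obtain ⟨f, k, h⟩ := φ.2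
    have hequiv : ∀ z, T (k • z) = f (k • z) * T z * (f (k • z))⁻¹ := fun z => by
      have e1 := hT (k • z)
      rw [hb, Ultrafilter.coe_map, eventually_map] at e1
      have e2 : ∀ᶠ x in (lam z : Filter K), f (k • x • z₀) = f (k • z) :=
        (hc z).eventually ((tr k f).isLocallyConstant.eventually_eq z)
      obtain ⟨x, h1, h2, h3⟩ := (e1.and (e2.and (hT z))).exists
      rw [← h1, ← h2, ← h3, ← mul_smul]
      exact hteq ⟨φ, hφ, f, k, h, rfl, rfl⟩
    refine Subtype.ext (Equiv.ext fun ω => LocallyConstant.ext fun z => ?_)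
    have e1 : (φ * τ).1 ω z = f z • T (k⁻¹ • z) • ω (k⁻¹ • z) := by rw [← hτ, ← h]; rfl
    have e2 : (τ * φ).1 ω z = T z • f z • ω (k⁻¹ • z) := by rw [← h, ← hτ]; rfl
    have e3 := hequiv (k⁻¹ • z)
    rw [smul_inv_smul] at e3
    rw [e1, e2, e3]
    simp [mul_smul]
  have hu : ∃! ω : LocallyConstant Z Γ, τ • ω = ω := by
    have hfx : ∀ a : L, ∃ γ : Γ, J a → a • γ = γ ∧ ∀ γ', a • γ' = γ' → γ' = γ := fun a => by
      by_cases h : J a
      · obtain ⟨γ, h1, h2⟩ := h.2
        exact ⟨γ, fun _ => ⟨h1, h2⟩⟩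
      · obtain ⟨γ, -⟩ := (hTJ z₀).2
        exact ⟨γ, fun h' => absurd h' h⟩
    choose fx hfx using hfx
    refine ⟨⟨fx ∘ T, hTlc.comp fx⟩, LocallyConstant.ext fun z => ?_,
      fun ω hω => LocallyConstant.ext fun z => ?_⟩
    · rw [hτ]; exact (hfx _ (hTJ z)).1
    · apply (hfx _ (hTJ z)).2
      rw [← hτ]
      exact congrArg (fun η : LocallyConstant Z Γ => η z) hω
  have hord : orderOf τ = 2 := by
    refine orderOf_eq_prime (Subtype.ext (Equiv.ext fun ω => LocallyConstant.ext fun z => ?_))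
      fun e => ?_
    · show (τ • τ • ω) z = ω z
      rw [hτ, hτ, ← mul_smul, sq_of_orderOf (hTJ z).1, one_smul]
    · obtain ⟨ω, -, hω⟩ := hu
      obtain ⟨y, hy⟩ := exists_ne ω
      exact hy (hω y (by show τ • y = y; rw [e, one_smul]))
  have hz : IsPGroup 2 (Subgroup.zpowers τ) :=
    IsPGroup.of_card (n := 1) (by rw [Nat.card_zpowers, hord, pow_one])
  have hsup := IsPGroup.to_sup_of_normal_right' S.isPGroup' hz (fun s hs => by
    apply Subgroup.centralizer_le_normalizer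
    rintro _ ⟨k, rfl⟩
    exact ((Commute.zpow_right (hcomm s hs) k).eq).symm)
  have hmem : τ ∈ (S : Subgroup _) := by
    rw [← S.is_maximal' hsup le_sup_left]
    exact Subgroup.mem_sup_right (Subgroup.mem_zpowers τ)
  exact ⟨τ, hmem, hcomm, hord, hu⟩

end

end Pool.Agent.Lib.MP_a7ce8b_al
end

-- part Pool.Agent.Lib.MP_a7ce8b_al.Flow
section

/-! The universal minimal flow of a discrete group, as a minimal left ideal of ultrafilters. -/

namespace Pool.Agent.Lib.MP_a7ce8b_al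

open MulAction Filter Topology

attribute [local instance] Ultrafilter.mul Ultrafilter.semigroup

universe u
variable {K : Type u} [Group K]

theorem pure_mul_eq (k : K) (q : Ultrafilter K) : pure k * q = q.map fun x => k * x :=
  Ultrafilter.coe_inj.mp <| Filter.ext' fun p => by simp [Ultrafilter.eventually_mul]

theorem exists_min_ideal (K : Type u) [Group K] : ∃ M : Set (Ultrafilter K), IsClosed M ∧
    M.Nonempty ∧ (∀ p, ∀ q ∈ M, p * q ∈ M) ∧ ∀ q ∈ M, ∀ q' ∈ M, ∃ p, p * q = q' := by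
  let 𝒮 : Set (Set (Ultrafilter K)) := {M | IsClosed M ∧ M.Nonempty ∧ ∀ p, ∀ q ∈ M, p * q ∈ M}
  obtain ⟨M, -, hM⟩ := zorn_superset_nonempty 𝒮 (fun c hc hch hne => by
    refine ⟨⋂₀ c, ⟨isClosed_sInter fun t ht => (hc ht).1, ?_, fun p q hq t ht =>
      (hc ht).2.2 p q (hq t ht)⟩, fun s hs => Set.sInter_subset_of_mem hs⟩
    have := hne.coe_sort
    rw [Set.sInter_eq_iInter]
    exact IsCompact.nonempty_iInter_of_directed_nonempty_isCompact_isClosed _
      (DirectedOn.directed_val (IsChain.directedOn hch.symm)) (fun i => (hc i.2).2.1)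
      (fun i => (hc i.2).1.isCompact) fun i => (hc i.2).1) Set.univ
      ⟨isClosed_univ, ⟨pure 1, trivial⟩, fun _ _ _ => trivial⟩
  refine ⟨M, hM.prop.1, hM.prop.2.1, hM.prop.2.2, fun q hq q' hq' => ?_⟩
  have h1 : Set.range (· * q) ∈ 𝒮 := by
    refine ⟨(isCompact_range (Ultrafilter.continuous_mul_left q)).isClosed, ⟨_, pure 1, rfl⟩, ?_⟩
    rintro p _ ⟨r, rfl⟩
    exact ⟨p * r, mul_assoc _ _ _⟩
  exact hM.le_of_le h1 (by rintro _ ⟨r, rfl⟩; exact hM.prop.2.2 r q hq) hq'

theorem map_ne (hK : IsLocallyFinite K) {k : K} (q : Ultrafilter K)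
    (h : (q.map fun x => k * x) = q) : k = 1 := by
  let C : Subgroup K := Subgroup.closure {k}
  have : Finite C := hK.finite_closure (Set.finite_singleton k)
  have hk : k ∈ C := Subgroup.subset_closure rfl
  let σ := QuotientGroup.rightRel C
  let c : K → C := fun x => ⟨x * ((Quotient.mk σ x).out)⁻¹,
    QuotientGroup.rightRel_apply.1 (Quotient.mk_out (s := σ) x)⟩
  have hc : ∀ x, c (k * x) = ⟨k, hk⟩ * c x := fun x => by
    have e : Quotient.mk σ (k * x) = Quotient.mk σ x :=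
      (Quotient.sound (QuotientGroup.rightRel_apply.2 (by simpa using hk))).symm
    exact Subtype.ext (by simp [c, e, mul_assoc])
  obtain ⟨a, ha⟩ := (q.map c).eq_pure_of_finite
  have h1 : {a} ∈ q.map c := by rw [ha]; exact Ultrafilter.mem_pure.2 rfl
  have h2 : ∀ᶠ x in (q : Filter K), c x = a := h1
  have h3 : ∀ᶠ x in (q : Filter K), c (k * x) = a := by
    rw [← h, Ultrafilter.coe_map, eventually_map] at h2
    exact h2
  obtain ⟨x, h4, h5⟩ := (h2.and h3).exists
  rw [hc, h4, mul_eq_right] at h5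
  exact congrArg Subtype.val h5

theorem exists_flow (hK : IsLocallyFinite K) :
    ∃ (Z : Type u) (_ : TopologicalSpace Z) (_ : CompactSpace Z) (_ : T2Space Z)
      (_ : TotallyDisconnectedSpace Z) (_ : MulAction K Z) (_ : ContinuousConstSMul K Z),
      IsMinimal K Z ∧ (∀ (k : K) (z : Z), k • z = z → k = 1) ∧
      ∃ (z₀ : Z) (lam : Z → Ultrafilter K), (∀ A : Set K, IsOpen {z | A ∈ lam z}) ∧
        (∀ (k : K) z, lam (k • z) = (lam z).map fun x => k * x) ∧
        ∀ z, Tendsto (fun x : K => x • z₀) (lam z) (𝓝 z) := by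
  obtain ⟨M, hM1, hM2, hM3, hM4⟩ := exists_min_ideal K
  obtain ⟨u, hu, huu⟩ := exists_idempotent_in_compact_subsemigroup Ultrafilter.continuous_mul_left
    M hM2 hM1.isCompact fun x _ y hy => hM3 x y hy
  let act : MulAction K M :=
    { smul := fun k q => ⟨q.1.map fun x => k * x, pure_mul_eq k q.1 ▸ hM3 _ _ q.2⟩
      one_smul := fun q => Subtype.ext (by
        show (q.1.map fun x => 1 * x) = q.1
        simp only [one_mul]
        exact Ultrafilter.map_id' _)
      mul_smul := fun a b q => Subtype.ext (by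
        show (q.1.map fun x => a * b * x) = (q.1.map fun x => b * x).map fun x => a * x
        rw [Ultrafilter.map_map]
        simp only [mul_assoc]
        rfl) }
  have hact : ∀ (k : K) (q : M), (k • q).1 = q.1.map fun x => k * x := fun _ _ => rfl
  have hcont : ContinuousConstSMul K M := ⟨fun k => by
    refine Continuous.subtype_mk (f := fun q : M => q.1.map fun x => k * x) ?_ _
    refine Continuous.comp (g := fun q : Ultrafilter K => q.map fun x => k * x) ?_
      continuous_subtype_val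
    exact ultrafilterBasis_is_basis.continuous_iff.2 <| Set.forall_mem_range.mpr fun s ↦
      ultrafilter_isOpen_basic ((fun x => k * x) ⁻¹' s)⟩
  have htend : ∀ (q q' : M) (p : Ultrafilter K), p * q.1 = q'.1 →
      Tendsto (fun x : K => x • q) p (𝓝 q') := fun q q' p e => by
    rw [tendsto_subtype_rng]
    simp only [hact, ← pure_mul_eq, ← e]
    exact ((Ultrafilter.continuous_mul_left q.1).tendsto p).comp p.tendsto_pure_self
  refine ⟨M, inferInstance, isCompact_iff_compactSpace.1 hM1.isCompact, inferInstance,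
    inferInstance, act, hcont, ⟨fun q q' => ?_⟩, fun k q h => map_ne hK q.1 (congrArg Subtype.val h),
    ⟨u, hu⟩, Subtype.val, fun A => (ultrafilter_isOpen_basic A).preimage continuous_subtype_val,
    hact, fun q => htend _ _ _ ?_⟩
  · obtain ⟨p, hp⟩ := hM4 _ q.2 _ q'.2
    exact mem_closure_of_tendsto (htend q q' p hp) (Eventually.of_forall fun x => ⟨x, rfl⟩)
  · obtain ⟨p, hp⟩ := hM4 _ hu _ q.2
    rw [← hp, mul_assoc, huu]

theorem bool_main {L Γ : Type*} [Group L] [MulAction L Γ] [FaithfulSMul L Γ] [Finite L]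
    [Nontrivial Γ] (hL : IsPreprimitive L Γ) (hnr : ∃ (l : L) (γ : Γ), l ≠ 1 ∧ l • γ = γ)
    (hs : Star L Γ) [Infinite K] (hK : IsLocallyFinite K) :
    ∃ (Z : Type u) (_ : TopologicalSpace Z) (_ : CompactSpace Z) (_ : T2Space Z)
      (_ : TotallyDisconnectedSpace Z) (_ : MulAction K Z) (_ : ContinuousConstSMul K Z),
      IsMinimal K Z ∧
      (∀ z : Z, ¬ IsOpen ({z} : Set Z)) ∧ (∀ (k : K) (z : Z), k • z = z → k = 1) ∧ Infinite Z ∧
      Infinite (LocallyConstant Z Γ) ∧ IsLocallyFinite (boolWreath L Γ K Z) ∧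
      IsPreprimitive (boolWreath L Γ K Z) (LocallyConstant Z Γ) ∧
      Star (boolWreath L Γ K Z) (LocallyConstant Z Γ) := by
  obtain ⟨Z, i1, i2, i3, i4, i5, i6, hmin, hfree, z₀, lam, ha, hb, hc⟩ := exists_flow hK
  have hinj : ∀ z : Z, Function.Injective fun k : K => k • z := fun z a b e => by
    have := hfree (b⁻¹ * a) z (by rw [mul_smul, inv_smul_eq_iff]; exact e)
    exact (inv_mul_eq_one.1 this).symm
  have hZ : Infinite Z := Infinite.of_injective _ (hinj z₀)
  obtain ⟨γ, γ', hγ⟩ := exists_pair_ne Γ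
  have hinf : Infinite (LocallyConstant Z Γ) := by
    by_contra hfin
    rw [not_infinite_iff_finite] at hfin
    have : Finite Γ := Finite.of_surjective _ (hL.toIsPretransitive.exists_smul_eq γ)
    have : Finite Z := by
      refine Finite.of_injective (fun (z : Z) (ω : LocallyConstant Z Γ) => ω z) fun z z' e => ?_
      by_contra hne
      obtain ⟨W, hW, h1, h2⟩ := exists_isClopen_of_totally_separated hne
      have := congrFun e (pw hW (LocallyConstant.const Z γ) (LocallyConstant.const Z γ'))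
      simp only [pw_pos _ _ _ h1, pw_neg _ _ _ h2] at this
      exact hγ this
    exact not_finite Z
  refine ⟨Z, i1, i2, i3, i4, i5, i6, hmin, fun z hz => ?_, hfree, hZ, hinf, bool_locallyFinite hK,
    bool_preprimitive hL hnr, bool_star hs z₀ lam ha hb hc⟩
  have hall : ∀ y : Z, IsOpen ({y} : Set Z) := fun y => by
    obtain ⟨k, hk⟩ := hz.exists_smul_mem K y ⟨z, rfl⟩
    convert hz.preimage (continuous_const_smul k) using 1
    ext w
    simp only [Set.mem_singleton_iff, Set.mem_preimage] at hk ⊢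
    rw [← hk, smul_left_cancel_iff]
  have : DiscreteTopology Z := discreteTopology_iff_isOpen_singleton.2 hall
  have : Finite Z := finite_of_compact_of_discrete
  exact not_finite Z

end Pool.Agent.Lib.MP_a7ce8b_al
end
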