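import Pool.Agent.Lib.MP_a7ce8b_al.Flow

/-! The normal structure of Boolean-power wreath products with a simple bottom group. -/

namespace Pool.Agent.Lib.MP_a7ce8b_al

open MulAction

/-- `G` has a smallest non-trivial normal subgroup; it is isomorphic to `B`, has itself no minimal
normal subgroup, and the quotient is `K`. -/
def IsMonolithic (G B K : Type*) [Group G] [Group B] [Group K] : Prop :=
  ∃ π : G →* K, Function.Surjective π ∧ Nonempty (B ≃* π.ker) ∧ π.ker ≠ ⊥ ∧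
    (∀ N : Subgroup G, N.Normal → N ≠ ⊥ → π.ker ≤ N) ∧
    ∀ M : Subgroup π.ker, M.Normal → M ≠ ⊥ → ∃ M' < M, M'.Normal ∧ M' ≠ ⊥

variable {L Γ K Z : Type*} [Group L] [MulAction L Γ] [Group K] [TopologicalSpace Z]
  [MulAction K Z] [ContinuousConstSMul K Z]

omit [ContinuousConstSMul K Z] in
theorem top_unique [TotallySeparatedSpace Z] [Nonempty Z] [Nontrivial Γ]
    (hfree : ∀ (k : K) (z : Z), k • z = z → k = 1) {f f' : LocallyConstant Z L} {k k' : K}
    (h : ∀ (ω : LocallyConstant Z Γ) z, f z • ω (k⁻¹ • z) = f' z • ω (k'⁻¹ • z)) : k = k' := by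
  obtain ⟨z⟩ : Nonempty Z := inferInstance
  by_contra hne
  have h1 : k⁻¹ • z ≠ k'⁻¹ • z := fun e => hne (by
    have := hfree (k' * k⁻¹) z (by rw [mul_smul, e, smul_inv_smul])
    exact (mul_inv_eq_one.1 this).symm)
  obtain ⟨W, hW, h2, h3⟩ := exists_isClopen_of_totally_separated h1
  obtain ⟨a, b, hab⟩ := exists_pair_ne Γ
  have e := fun c => h (pw hW (.const Z c) (.const Z a)) z
  simp only [pw_pos _ _ _ h2, pw_neg _ _ _ h3, LocallyConstant.coe_const,
    Function.const_apply] at e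
  exact hab (smul_left_cancel _ ((e a).trans (e b).symm))

variable (Γ K) in
/-- The base group. -/
def baseW : LocallyConstant Z L →* boolWreath L Γ K Z where
  toFun f := mkW Γ f 1
  map_one' := Subtype.ext (Equiv.ext fun ω => LocallyConstant.ext fun z => by
    show (mkW Γ (1 : LocallyConstant Z L) (1 : K) • ω) z = ω z
    simp)
  map_mul' f g := Subtype.ext (Equiv.ext fun ω => LocallyConstant.ext fun z => by
    show (mkW Γ (f * g) (1 : K) • ω) z = (mkW Γ f (1 : K) • mkW Γ g (1 : K) • ω) z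
    simp [mul_smul])

theorem baseW_inj [FaithfulSMul L Γ] :
    Function.Injective (baseW Γ K : LocallyConstant Z L → boolWreath L Γ K Z) := fun f g e =>
  LocallyConstant.ext fun z => eq_of_smul_eq_smul (α := Γ) fun γ => by
    simpa [baseW] using congrArg (fun φ : boolWreath L Γ K Z => (φ • LocallyConstant.const Z γ) z) e

theorem mkW_conj (f g : LocallyConstant Z L) (k : K) :
    mkW Γ f k * baseW Γ K g * (mkW Γ f k)⁻¹ = baseW Γ K (f * tr k⁻¹ g * f⁻¹) := by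
  rw [mul_inv_eq_iff_eq_mul]
  refine Subtype.ext (Equiv.ext fun ω => LocallyConstant.ext fun z => ?_)
  show (mkW Γ f k • mkW Γ g (1 : K) • ω) z =
    (mkW Γ (f * tr k⁻¹ g * f⁻¹) (1 : K) • mkW Γ f k • ω) z
  simp [mul_smul]

theorem exists_mkW (φ : boolWreath L Γ K Z) : ∃ f k, φ = mkW Γ f k :=
  φ.2.imp fun _ h => h.imp fun _ h => Subtype.ext (Equiv.ext fun ω => LocallyConstant.ext (h ω))

theorem exists_top [TotallySeparatedSpace Z] [Nonempty Z] [Nontrivial Γ]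
    (hfree : ∀ (k : K) (z : Z), k • z = z → k = 1) :
    ∃ π : boolWreath L Γ K Z →* K, ∀ f k, π (mkW Γ f k) = k := by
  choose f k h using exists_mkW (L := L) (Γ := Γ) (K := K) (Z := Z)
  have e : ∀ f' k', k (mkW Γ f' k') = k' := fun f' k' => top_unique (Γ := Γ) hfree fun ω z =>
    congrArg (fun φ : boolWreath L Γ K Z => (φ • ω) z) (h (mkW Γ f' k')).symm
  refine ⟨.mk' k fun φ ψ => ?_, e⟩
  rw [← e (f φ * tr (k φ)⁻¹ (f ψ)) (k φ * k ψ)]
  congr 1
  conv_lhs => rw [h φ, h ψ]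
  refine Subtype.ext (Equiv.ext fun ω => LocallyConstant.ext fun z => ?_)
  show (mkW Γ (f φ) (k φ) • mkW Γ (f ψ) (k ψ) • ω) z =
    (mkW Γ (f φ * tr (k φ)⁻¹ (f ψ)) (k φ * k ψ) • ω) z
  simp [mul_smul]

theorem exists_not_comm [IsSimpleGroup L] [FaithfulSMul L Γ] (hL : IsPretransitive L Γ)
    (hnr : ∃ (l : L) (γ : Γ), l ≠ 1 ∧ l • γ = γ) {a : L} (ha : a ≠ 1) :
    ∃ b : L, a * b * a⁻¹ * b⁻¹ ≠ 1 := by
  by_contra! h
  have h1 : Subgroup.center L = ⊤ :=
    (Subgroup.Normal.eq_bot_or_eq_top inferInstance).resolve_left fun e => ha (by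
      rw [← Subgroup.mem_bot, ← e, Subgroup.mem_center_iff]
      intro b
      have := h b
      rw [mul_inv_eq_one, mul_inv_eq_iff_eq_mul] at this
      exact this.symm)
  obtain ⟨l, γ, hl, hγ⟩ := hnr
  refine hl (eq_of_smul_eq_smul (α := Γ) fun x => ?_)
  obtain ⟨g, rfl⟩ := hL.exists_smul_eq γ x
  rw [← mul_smul, ← Subgroup.mem_center_iff.1 (h1 ▸ Subgroup.mem_top l) g, mul_smul, hγ, one_smul]

omit [MulAction K Z] [ContinuousConstSMul K Z] in
theorem comm_pw {W : Set Z} (hW : IsClopen W) (f : LocallyConstant Z L) {a : L}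
    (h : ∀ z ∈ W, f z = a) (b : L) :
    f * (pw hW (.const Z b) 1 * f⁻¹ * (pw hW (.const Z b) 1)⁻¹) =
      pw hW (.const Z (a * b * a⁻¹ * b⁻¹)) 1 := LocallyConstant.ext fun z => by
  by_cases hz : z ∈ W <;> simp [pw_pos, pw_neg, hz, h, mul_assoc]

/-- An invariant normal subgroup of the Boolean power of a simple group is trivial. -/
theorem power_simple [CompactSpace Z] [IsMinimal K Z] [IsSimpleGroup L]
    (hc : ∀ a : L, a ≠ 1 → ∃ b : L, a * b * a⁻¹ * b⁻¹ ≠ 1) (I : Subgroup (LocallyConstant Z L))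
    (hI : I.Normal) (hK : ∀ (k : K), ∀ f ∈ I, tr k f ∈ I) {f : LocallyConstant Z L} (hf : f ∈ I)
    (h1 : f ≠ 1) (ξ : LocallyConstant Z L) : ξ ∈ I := by
  obtain ⟨z₀, hz₀⟩ := DFunLike.ne_iff.1 h1
  have hY : IsClopen {z | f z = f z₀} := f.isLocallyConstant.isClopen_fiber _
  obtain ⟨b, hb⟩ := hc _ hz₀
  have claim : ∀ (k : K) (W : Set Z) (hW : IsClopen W), (∀ z ∈ W, f (k • z) = f z₀) →
      ∀ l : L, pw hW (.const Z l) 1 ∈ I := by
    intro k W hW h l
    let c : L →* LocallyConstant Z L := .mk' (fun l => pw hW (.const Z l) 1) fun a b =>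
      LocallyConstant.ext fun z => by by_cases hz : z ∈ W <;> simp [pw_pos, pw_neg, hz]
    have h2 : I.comap c = ⊤ := (hI.comap c).eq_bot_or_eq_top.resolve_left fun e => hb (by
      rw [← Subgroup.mem_bot, ← e]
      show pw hW (.const Z _) 1 ∈ I
      rw [← comm_pw hW (tr k f) h b]
      exact mul_mem (hK k f hf) (hI.conj_mem _ (inv_mem (hK k f hf)) _))
    exact (h2 ▸ Subgroup.mem_top l : l ∈ I.comap c)
  have key := isCompact_univ.induction_on (p := fun s : Set Z => ∃ W, IsClopen W ∧ s ⊆ W ∧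
      ∀ (W' : Set Z) (hW' : IsClopen W'), W' ⊆ W → pw hW' ξ 1 ∈ I) ?_ ?_ ?_ ?_
  · obtain ⟨W, -, hW, h⟩ := key
    have := h _ isClopen_univ hW
    rwa [show pw isClopen_univ ξ 1 = ξ from
      LocallyConstant.ext fun z => pw_pos _ _ _ (Set.mem_univ z)] at this
  · refine ⟨∅, isClopen_empty, subset_rfl, fun W' hW' h => ?_⟩
    rw [show pw hW' ξ 1 = 1 from LocallyConstant.ext fun z => pw_neg _ _ _ fun hz => h hz]
    exact one_mem _
  · rintro s t hst ⟨W, h1, h2, h3⟩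
    exact ⟨W, h1, hst.trans h2, h3⟩
  · rintro s t ⟨W₁, h1, h2, h3⟩ ⟨W₂, h4, h5, h6⟩
    refine ⟨W₁ ∪ W₂, h1.union h4, Set.union_subset_union h2 h5, fun W' hW' h => ?_⟩
    convert mul_mem (h3 _ (hW'.inter h1) Set.inter_subset_right)
      (h6 _ (hW'.diff h1) fun z hz => (h hz.1).resolve_left hz.2) using 1
    refine LocallyConstant.ext fun z => ?_
    by_cases hz : z ∈ W' <;> by_cases hz' : z ∈ W₁ <;> simp [pw_pos, pw_neg, hz, hz']
  · intro z _
    obtain ⟨k, hk⟩ := hY.isOpen.exists_smul_mem K z ⟨z₀, rfl⟩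
    have hW : IsClopen ({y | tr k f y = f z₀} ∩ {y | ξ y = ξ z}) :=
      ((tr k f).isLocallyConstant.isClopen_fiber _).inter (ξ.isLocallyConstant.isClopen_fiber _)
    refine ⟨_, mem_nhdsWithin_of_mem_nhds (hW.isOpen.mem_nhds ⟨hk, rfl⟩), _, hW, subset_rfl,
      fun W' hW' h => ?_⟩
    convert claim k W' hW' (fun y hy => (h hy).1) (ξ z) using 1
    refine LocallyConstant.ext fun y => ?_
    by_cases hy : y ∈ W'
    · rw [pw_pos _ _ _ hy, pw_pos _ _ _ hy]; exact (h hy).2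
    · rw [pw_neg _ _ _ hy, pw_neg _ _ _ hy]

omit [MulAction K Z] [ContinuousConstSMul K Z] in
/-- Without isolated points the Boolean power has no minimal normal subgroup. -/
theorem power_no_min [TotallySeparatedSpace Z] (hZ : ∀ z : Z, ¬ IsOpen ({z} : Set Z))
    (hc : ∀ a : L, a ≠ 1 → ∃ b : L, a * b * a⁻¹ * b⁻¹ ≠ 1) (M : Subgroup (LocallyConstant Z L))
    (hM : M.Normal) (h : M ≠ ⊥) : ∃ M' < M, M'.Normal ∧ M' ≠ ⊥ := by
  obtain ⟨⟨f, hf⟩, h1⟩ := Subgroup.ne_bot_iff_exists_ne_one.1 h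
  obtain ⟨z₀, hz₀⟩ := DFunLike.ne_iff.1 fun e : f = 1 => h1 (Subtype.ext e)
  have hY : IsClopen {z | f z = f z₀} := f.isLocallyConstant.isClopen_fiber _
  obtain ⟨z, hz, hne⟩ : ∃ z, f z = f z₀ ∧ z ≠ z₀ := by
    by_contra! e
    refine hZ z₀ ?_
    convert hY.isOpen using 1
    exact Set.ext fun z => ⟨fun hz => by rw [Set.mem_singleton_iff.1 hz]; rfl, e z⟩
  obtain ⟨W, hW, h2, h3⟩ := exists_isClopen_of_totally_separated hne
  obtain ⟨b, hb⟩ := hc _ hz₀
  let ev : LocallyConstant Z L →* L := .mk' (fun g => g z₀) fun _ _ => rfl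
  refine ⟨M ⊓ ev.ker, inf_lt_left.2 fun e => hz₀ (e hf),
    inferInstance, Subgroup.ne_bot_iff_exists_ne_one.2 ⟨⟨pw (hW.inter hY)
      (.const Z (f z₀ * b * (f z₀)⁻¹ * b⁻¹)) 1, ?_,
      pw_neg (hW.inter hY) _ _ fun e => h3 e.1⟩, fun e => hb ?_⟩⟩
  · rw [← comm_pw _ f fun _ e => e.2]
    exact mul_mem hf (hM.conj_mem _ (inv_mem hf) _)
  · exact (pw_pos (hW.inter hY) (.const Z _) 1 ⟨h2, hz⟩).symm.trans
      (congrArg (fun g => g.1 z) e)

theorem bool_monolith [CompactSpace Z] [TotallySeparatedSpace Z] [Nonempty Z] [IsMinimal K Z]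
    [IsSimpleGroup L] [FaithfulSMul L Γ] [Nontrivial Γ] (hL : IsPretransitive L Γ)
    (hnr : ∃ (l : L) (γ : Γ), l ≠ 1 ∧ l • γ = γ) (hZ : ∀ z : Z, ¬ IsOpen ({z} : Set Z))
    (hfree : ∀ (k : K) (z : Z), k • z = z → k = 1) :
    IsMonolithic (boolWreath L Γ K Z) (LocallyConstant Z L) K := by
  obtain ⟨π, hπ⟩ := exists_top (L := L) (Γ := Γ) hfree
  have hc := fun a : L => exists_not_comm (a := a) hL hnr
  have hk : (baseW Γ K).range = π.ker := Subgroup.ext fun φ => ⟨fun ⟨f, e⟩ => e ▸ hπ f 1,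
    fun e => by
      obtain ⟨f, k, rfl⟩ := exists_mkW φ
      exact ⟨f, by rw [(hπ f k).symm.trans e]; rfl⟩⟩
  let e := (MonoidHom.ofInjective (baseW_inj (L := L) (Γ := Γ) (K := K) (Z := Z))).trans
    (MulEquiv.subgroupCongr hk)
  obtain ⟨z⟩ : Nonempty Z := inferInstance
  obtain ⟨l, hl⟩ := exists_ne (1 : L)
  refine ⟨π, fun k => ⟨_, hπ 1 k⟩, ⟨e⟩, fun h => hl ?_, fun N hN h => ?_, fun M hM h => ?_⟩
  · rw [← hk, MonoidHom.range_eq_bot_iff] at h
    exact congrArg (fun g : LocallyConstant Z L => g z)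
      (baseW_inj ((DFunLike.congr_fun h (.const Z l)).trans (map_one _).symm))
  · obtain ⟨⟨φ, hφ⟩, h1⟩ := Subgroup.ne_bot_iff_exists_ne_one.1 h
    obtain ⟨f, k, rfl⟩ := exists_mkW φ
    obtain ⟨g, hg, hg'⟩ : ∃ g, baseW Γ K g ∈ N ∧ g ≠ 1 := by
      by_cases hk : k = 1
      · subst hk
        exact ⟨f, hφ, fun e => h1 (Subtype.ext ((congrArg (baseW Γ K) e).trans (map_one _)))⟩
      obtain ⟨W, hW, h2, h3⟩ := exists_isClopen_of_totally_separated
        (fun e => hk (inv_eq_one.1 (hfree _ z e.symm)) : z ≠ k⁻¹ • z)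
      refine ⟨f * tr k⁻¹ (pw hW (.const Z l) 1) * f⁻¹ * (pw hW (.const Z l) 1)⁻¹, ?_,
        fun e => hl ?_⟩
      · rw [map_mul, ← mkW_conj, map_inv, mul_assoc, mul_assoc, ← mul_assoc (baseW Γ K _)]
        exact mul_mem hφ (hN.conj_mem _ (inv_mem hφ) _)
      · simpa [pw_pos _ _ _ h2, pw_neg _ _ _ h3] using
          congrArg (fun g : LocallyConstant Z L => g z) e
    rw [← hk]
    rintro _ ⟨ξ, rfl⟩
    refine power_simple (K := K) hc (N.comap (baseW Γ K)) (hN.comap _) (fun k f hf => ?_) hg hg' ξ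
    simpa [mkW_conj] using hN.conj_mem _ hf (mkW Γ 1 k⁻¹)
  · obtain ⟨M', h1, h2, h3⟩ := power_no_min hZ hc (M.comap e.toMonoidHom) (hM.comap _) fun c =>
      h (by rw [← Subgroup.map_comap_eq_self_of_surjective (f := e.toMonoidHom) e.surjective M, c,
        Subgroup.map_bot])
    refine ⟨M'.map e.toMonoidHom, ?_, h2.map _ e.surjective,
      fun c => h3 ((Subgroup.map_eq_bot_iff_of_injective _ e.injective).1 c)⟩
    rw [← Subgroup.map_comap_eq_self_of_surjective (f := e.toMonoidHom) e.surjective M]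
    exact (Subgroup.map_lt_map_iff_of_injective e.injective).2 h1

end Pool.Agent.Lib.MP_a7ce8b_al
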