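import Pool.Agent.Lib.MP_a7ce8b_al.Count

/-! Countable degree: the groups with (*) and a non-trivial locally soluble normal subgroup are
described by a minimal condition on fixed spaces of 2-subgroups. -/

namespace Pool.Agent.Lib.MP_a7ce8b_al.OldCountableAffine

open Pool.Agent.Lib.MP_a7ce8b_al

theorem result (G Ω : Type*) [Group G] [MulAction G Ω] [FaithfulSMul G Ω] [Nontrivial Ω]
    [Countable Ω] :
    (IsLocallyFinite G ∧ MulAction.IsPreprimitive G Ω ∧ Star G Ω ∧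
      ∃ N : Subgroup G, N.Normal ∧ N ≠ ⊥ ∧ IsLocallySoluble N) ↔
    ∃ (p : ℕ) (_ : Fact p.Prime) (_ : AddCommGroup Ω) (_ : Module (ZMod p) Ω)
      (G₀ : Subgroup (Ω ≃ₗ[ZMod p] Ω)), p ≠ 2 ∧ ActsAsAffine G G₀ ∧ IsLocallyFinite G₀ ∧
      IsIrreducibleLinear G₀ ∧ LinearEquiv.neg (ZMod p) ∈ G₀ ∧
      ∀ S ≤ G₀, IsPGroup 2 S →
        ∃ S₀ ≤ S, Finite S₀ ∧ ∀ v : Ω, (∀ s ∈ S₀, s v = v) → ∀ s ∈ S, s v = v := by
  constructor
  · rintro ⟨h1, h2, h3, N, h4, h5, h6⟩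
    obtain ⟨p, i1, i2, i3, G₀, g1, g2, g3, g4, g5, g6⟩ := affine_of_star h1 h2 h3 h4 h5 h6
    refine ⟨p, i1, i2, i3, G₀, g1, g2, g3, g4, g5, fun S hS hS2 => ?_⟩
    exact min_of_h1 (g3.of_injective _ (Subgroup.inclusion_injective hS))
      fun S' h => g6 S' (h.trans hS) (hS2.to_le h)
  · rintro ⟨p, _, _, _, G₀, h1, h2, h3, h4, h5, h6⟩
    refine star_of_affine h1 h2 h3 h4 h5 fun S hS hS2 => ?_
    obtain ⟨S₀, g1, g2, g3⟩ := h6 S hS hS2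
    exact h1_of_min h1 hS2 (h3.of_injective _ (Subgroup.inclusion_injective hS)) g1 g3

end Pool.Agent.Lib.MP_a7ce8b_al.OldCountableAffine
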